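import Pool.Agent.Work.MP_a2ab48_an.Topology

open Set Topology

namespace Pool.Agent.Work.MP_a2ab48_an

theorem countable_angles (θ : ℝ) :
    {φ : ℝ | Real.cos φ = Real.cos θ ∧ Real.sin φ = Real.sin θ}.Countable := by
  apply (countable_range fun n : ℤ => θ + 2 * Real.pi * n).mono
  rintro φ ⟨h1, h2⟩
  have := Real.Angle.cos_sin_inj h1 h2
  obtain ⟨k, hk⟩ := Real.Angle.angle_eq_iff_two_pi_dvd_sub.mp this
  exact ⟨k, by simp only; linarith⟩

/-- The complement of the two rays in `Y` is preconnected. -/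
theorem isPreconnected_compl {y : Rn 5} (hy : y ∈ Y) :
    IsPreconnected (Y ∩ (Ray1 y)ᶜ ∩ (Ray2 y)ᶜ) := by
  obtain ⟨α0, β0, r0, hr0, hpol⟩ := exists_polar hy
  set Lam : Set (ℝ × ℝ) := {φ : ℝ | Real.cos φ = Real.cos α0 ∧ Real.sin φ = Real.sin α0} ×ˢ
    {φ : ℝ | Real.cos φ = Real.cos β0 ∧ Real.sin φ = Real.sin β0} with hLam
  have hcount : Lam.Countable := (countable_angles α0).prod (countable_angles β0)
  have hrank : 1 < Module.rank ℝ (ℝ × ℝ) := by
    rw [rank_prod', Module.rank_self]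
    norm_num
  have hconn : IsPreconnected (Lamᶜ) :=
    (hcount.isPathConnected_compl_of_one_lt_rank hrank).isConnected.isPreconnected
  have hdense : Dense (Lamᶜ) := hcount.dense_compl ℝ
  set T : Set ((ℝ × ℝ) × (ℝ × ℝ)) := Lamᶜ ×ˢ (Ioi (0 : ℝ) ×ˢ (univ : Set ℝ)) with hT
  have hTconn : IsPreconnected T := hconn.prod (isPreconnected_Ioi.prod isPreconnected_univ)
  have himg : IsPreconnected (polar '' T) := hTconn.image _ continuous_polar.continuousOn
  -- coordinates of y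
  have y0 : y 0 = r0 * Real.cos α0 := by rw [← hpol]; simp [polar]
  have y1 : y 1 = r0 * Real.sin α0 := by rw [← hpol]; simp [polar]
  have y2 : y 2 = r0 * Real.cos β0 := by rw [← hpol]; simp [polar]
  have y3 : y 3 = r0 * Real.sin β0 := by rw [← hpol]; simp [polar]
  -- a common argument
  have hcommon : ∀ (q : (ℝ × ℝ) × (ℝ × ℝ)), q ∈ T → ∀ lam : ℝ, 1 ≤ lam →
      ¬ (∀ j : Fin 5, j ≠ 4 → polar q j = lam * y j) := by
    rintro ⟨⟨α, β⟩, ⟨r, s⟩⟩ ⟨hq1, hq2, -⟩ lam hlam hall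
    have hr : 0 < r := hq2
    apply hq1
    have c0 : r * Real.cos α = lam * (r0 * Real.cos α0) := by
      have := hall 0 (by decide); rw [y0] at this; simpa [polar] using this
    have c1 : r * Real.sin α = lam * (r0 * Real.sin α0) := by
      have := hall 1 (by decide); rw [y1] at this; simpa [polar] using this
    have c2 : r * Real.cos β = lam * (r0 * Real.cos β0) := by
      have := hall 2 (by decide); rw [y2] at this; simpa [polar] using this
    have c3 : r * Real.sin β = lam * (r0 * Real.sin β0) := by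
      have := hall 3 (by decide); rw [y3] at this; simpa [polar] using this
    have hr2 : r ^ 2 = (lam * r0) ^ 2 := by
      have e1 := Real.sin_sq_add_cos_sq α
      have e2 := Real.sin_sq_add_cos_sq α0
      calc r ^ 2 = (r * Real.cos α) ^ 2 + (r * Real.sin α) ^ 2 := by
            linear_combination (-r ^ 2) * e1
        _ = (lam * (r0 * Real.cos α0)) ^ 2 + (lam * (r0 * Real.sin α0)) ^ 2 := by rw [c0, c1]
        _ = (lam * r0) ^ 2 := by linear_combination (lam * r0) ^ 2 * e2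
    have hrr : r = lam * r0 := by
      rwa [sq_eq_sq₀ hr.le (by positivity)] at hr2
    rw [← mul_assoc, ← hrr] at c0 c1 c2 c3
    exact ⟨⟨mul_left_cancel₀ hr.ne' c0, mul_left_cancel₀ hr.ne' c1⟩,
      ⟨mul_left_cancel₀ hr.ne' c2, mul_left_cancel₀ hr.ne' c3⟩⟩
  refine himg.subset_closure ?_ ?_
  · rintro _ ⟨q, hq, rfl⟩
    refine ⟨⟨polar_mem_Y q, fun h => ?_⟩, fun h => ?_⟩
    · exact hcommon q hq _ (by linarith [h.1]) h.2
    · exact hcommon q hq _ (by linarith [h.1]) h.2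
  · rintro x ⟨⟨hx, -⟩, -⟩
    obtain ⟨α, β, r, hr, hxp⟩ := exists_polar hx
    apply image_closure_subset_closure_image continuous_polar
    refine ⟨((α, β), (r, x 4)), ?_, hxp⟩
    rw [hT, closure_prod_eq, closure_prod_eq, hdense.closure_eq, closure_Ioi, closure_univ]
    exact ⟨trivial, hr, trivial⟩

/-- On `Y` minus a point every nonvanishing continuous function has a continuous logarithm. -/
theorem exists_log {y : Rn 5} (hy : y ∈ Y) {g : Rn 5 → ℂ} (hg : ContinuousOn g (Y \ {y}))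
    (hg0 : ∀ x ∈ Y \ {y}, g x ≠ 0) :
    ∃ L : Rn 5 → ℂ, ContinuousOn L (Y \ {y}) ∧ ∀ x ∈ Y \ {y}, Complex.exp (L x) = g x := by
  have hy1 : y ∈ Ray1 y := ⟨by simp, fun j _ => by ring⟩
  have hy2 : y ∈ Ray2 y := ⟨by simp, fun j _ => by ring⟩
  have e1 : (Y \ {y}) ∩ (Ray1 y)ᶜ = Y ∩ (Ray1 y)ᶜ := by
    ext x
    constructor
    · rintro ⟨⟨h1, -⟩, h2⟩; exact ⟨h1, h2⟩
    · rintro ⟨h1, h2⟩
      exact ⟨⟨h1, fun h => h2 (by rw [mem_singleton_iff] at h; rw [h]; exact hy1)⟩, h2⟩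
  have e2 : (Y \ {y}) ∩ (Ray2 y)ᶜ = Y ∩ (Ray2 y)ᶜ := by
    ext x
    constructor
    · rintro ⟨⟨h1, -⟩, h2⟩; exact ⟨h1, h2⟩
    · rintro ⟨h1, h2⟩
      exact ⟨⟨h1, fun h => h2 (by rw [mem_singleton_iff] at h; rw [h]; exact hy2)⟩, h2⟩
  have hs1 : (Y \ {y}) ∩ (Ray1 y)ᶜ ⊆ Y \ {y} := inter_subset_left
  have hs2 : (Y \ {y}) ∩ (Ray2 y)ᶜ ⊆ Y \ {y} := inter_subset_left
  obtain ⟨L1, hL1, hL1'⟩ := exists_log_star (star1 y).1 (star1 y).2 (hg.mono (e1 ▸ hs1))
    (fun x hx => hg0 x ((e1 ▸ hs1) hx))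
  obtain ⟨L2, hL2, hL2'⟩ := exists_log_star (star2 y).1 (star2 y).2 (hg.mono (e2 ▸ hs2))
    (fun x hx => hg0 x ((e2 ▸ hs2) hx))
  refine glue_log (isClosed_Ray1 y).isOpen_compl (isClosed_Ray2 y).isOpen_compl ?_ ?_
    (by rw [e1]; exact hL1) (by rw [e2]; exact hL2) (by rw [e1]; exact hL1')
    (by rw [e2]; exact hL2')
  · rintro x ⟨hxY, hxy⟩
    by_contra hcon
    rw [mem_union, mem_compl_iff, mem_compl_iff, not_or, not_not, not_not] at hcon
    apply hxy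
    rw [mem_singleton_iff]
    obtain ⟨⟨h1, h2⟩, ⟨h3, -⟩⟩ := hcon
    have h4 : x 4 = y 4 := by linarith
    ext j
    by_cases hj : j = 4
    · rw [hj, h4]
    · rw [h2 j hj, h4]; ring
  · rw [e1]
    exact isPreconnected_compl hy

/-- the zero set of `2 (x₀² + x₁² + x₄²) - 3 (x₂² + x₃²)` -/
def Z : Set (Rn 5) := {x | 2 * (x 0 ^ 2 + x 1 ^ 2 + x 4 ^ 2) - 3 * (x 2 ^ 2 + x 3 ^ 2) = 0}

theorem zero_mem_Z : (0 : Rn 5) ∈ Z := by
  show _ = _
  simp

/-- the loop in `Z` -/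
noncomputable def loop (θ : ℝ) : Rn 5 :=
  WithLp.toLp 2 ![Real.sqrt (3 / 2), 0, Real.cos θ, Real.sin θ, 0]

theorem loop_mem (θ : ℝ) : loop θ ∈ Z := by
  show _ = _
  simp only [loop]
  simp only [Fin.isValue, Matrix.cons_val_zero, Matrix.cons_val_one, Matrix.cons_val]
  have h1 := Real.sin_sq_add_cos_sq θ
  have h2 : Real.sqrt (3 / 2) ^ 2 = 3 / 2 := Real.sq_sqrt (by norm_num)
  linear_combination 2 * h2 - 3 * h1

theorem continuous_loop : Continuous loop := by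
  unfold loop
  refine (PiLp.continuous_toLp 2 _).comp ?_
  apply continuous_pi
  intro i
  fin_cases i <;> simp <;> fun_prop

theorem loop_two (θ : ℝ) : loop θ 2 = Real.cos θ := by simp [loop]

theorem loop_three (θ : ℝ) : loop θ 3 = Real.sin θ := by simp [loop]

/-- `Y` and `Z` are not homeomorphic. -/
theorem not_homeo (f : Y ≃ₜ Z) : False := by
  classical
  set y : Rn 5 := (f.symm ⟨0, zero_mem_Z⟩).1 with hy
  have hyY : y ∈ Y := (f.symm ⟨0, zero_mem_Z⟩).2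
  set g : Rn 5 → ℂ := fun x => if h : x ∈ Y then ⟨(f ⟨x, h⟩ : Rn 5) 2, (f ⟨x, h⟩ : Rn 5) 3⟩ else 1
    with hg
  have hgc : ContinuousOn g Y := by
    rw [continuousOn_iff_continuous_domRestrict]
    have : (Y.domRestrict g) = fun a : Y => (⟨(f a : Rn 5) 2, (f a : Rn 5) 3⟩ : ℂ) := by
      ext a
      simp [Set.domRestrict, hg, a.2]
    rw [this]
    have h2 : Continuous fun a : Y => ((f a : Rn 5) 2, (f a : Rn 5) 3) := by fun_prop
    exact Complex.equivRealProdCLM.symm.continuous.comp h2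
  have hg0 : ∀ x ∈ Y \ {y}, g x ≠ 0 := by
    rintro x ⟨hx, hxy⟩ h0
    apply hxy
    simp only [hg, hx, dif_pos] at h0
    have h2 : (f ⟨x, hx⟩ : Rn 5) 2 = 0 := congrArg Complex.re h0
    have h3 : (f ⟨x, hx⟩ : Rn 5) 3 = 0 := congrArg Complex.im h0
    have hZ : 2 * ((f ⟨x, hx⟩ : Rn 5) 0 ^ 2 + (f ⟨x, hx⟩ : Rn 5) 1 ^ 2 + (f ⟨x, hx⟩ : Rn 5) 4 ^ 2)
      - 3 * ((f ⟨x, hx⟩ : Rn 5) 2 ^ 2 + (f ⟨x, hx⟩ : Rn 5) 3 ^ 2) = 0 := (f ⟨x, hx⟩).2
    rw [h2, h3] at hZ
    have h0' : (f ⟨x, hx⟩ : Rn 5) 0 = 0 := by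
      nlinarith [sq_nonneg ((f ⟨x, hx⟩ : Rn 5) 0), sq_nonneg ((f ⟨x, hx⟩ : Rn 5) 1),
        sq_nonneg ((f ⟨x, hx⟩ : Rn 5) 4)]
    have h1' : (f ⟨x, hx⟩ : Rn 5) 1 = 0 := by
      nlinarith [sq_nonneg ((f ⟨x, hx⟩ : Rn 5) 0), sq_nonneg ((f ⟨x, hx⟩ : Rn 5) 1),
        sq_nonneg ((f ⟨x, hx⟩ : Rn 5) 4)]
    have h4' : (f ⟨x, hx⟩ : Rn 5) 4 = 0 := by
      nlinarith [sq_nonneg ((f ⟨x, hx⟩ : Rn 5) 0), sq_nonneg ((f ⟨x, hx⟩ : Rn 5) 1),
        sq_nonneg ((f ⟨x, hx⟩ : Rn 5) 4)]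
    have hf0 : f ⟨x, hx⟩ = ⟨0, zero_mem_Z⟩ := by
      apply Subtype.ext
      ext j
      fin_cases j
      · exact h0'
      · exact h1'
      · exact h2
      · exact h3
      · exact h4'
    have : (⟨x, hx⟩ : Y) = f.symm ⟨0, zero_mem_Z⟩ := by rw [← hf0, f.symm_apply_apply]
    rw [mem_singleton_iff, hy, ← this]
  obtain ⟨L, hL, hLexp⟩ := exists_log hyY (hgc.mono sdiff_subset) hg0
  -- the lifted loop
  set γ : ℝ → Rn 5 := fun θ => (f.symm ⟨loop θ, loop_mem θ⟩).1 with hγ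
  have hγc : Continuous γ := by
    have h1 : Continuous fun θ : ℝ => (⟨loop θ, loop_mem θ⟩ : Z) :=
      continuous_loop.subtype_mk _
    exact continuous_subtype_val.comp (f.symm.continuous.comp h1)
  have hγm : ∀ θ, γ θ ∈ Y \ {y} := by
    intro θ
    refine ⟨(f.symm ⟨loop θ, loop_mem θ⟩).2, fun h => ?_⟩
    rw [mem_singleton_iff] at h
    have h1 : f.symm ⟨loop θ, loop_mem θ⟩ = f.symm ⟨0, zero_mem_Z⟩ := Subtype.ext h
    have h2 := f.symm.injective h1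
    have h3 : loop θ = 0 := congrArg Subtype.val h2
    have h4 := congrArg (fun v : Rn 5 => v 0) h3
    simp only [loop] at h4
    simp at h4
  have hgγ : ∀ θ, g (γ θ) = Complex.exp (θ * Complex.I) := by
    intro θ
    have hmem : γ θ ∈ Y := (hγm θ).1
    simp only [hg, hmem, dif_pos]
    have : (⟨γ θ, hmem⟩ : Y) = f.symm ⟨loop θ, loop_mem θ⟩ := Subtype.ext rfl
    rw [this, f.apply_symm_apply]
    simp only
    rw [loop_two, loop_three, Complex.exp_mul_I]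
    apply Complex.ext
    · simp [← Complex.ofReal_cos, ← Complex.ofReal_sin]
    · simp [← Complex.ofReal_cos, ← Complex.ofReal_sin]
  have hLc : Continuous fun θ => L (γ θ) := hL.comp_continuous hγc hγm
  have hconst := log_diff_const (X := ℝ) (A := univ) isPreconnected_univ
    (L1 := fun θ => L (γ θ)) (L2 := fun θ : ℝ => (θ : ℂ) * Complex.I) hLc.continuousOn
    (by fun_prop) (fun θ _ => by rw [hLexp _ (hγm θ), hgγ θ]) (mem_univ 0) (mem_univ (2 * Real.pi))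
  have hper : γ (2 * Real.pi) = γ 0 := by
    simp only [hγ]
    congr 2
    apply Subtype.ext
    simp [loop]
  simp only [hper] at hconst
  have : (2 * Real.pi : ℂ) * Complex.I = 0 := by
    push_cast at hconst
    linear_combination hconst
  simp [Real.pi_ne_zero] at this

end Pool.Agent.Work.MP_a2ab48_an
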