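import Pool.Agent.Work.MP_a2ab48_an.Component
import Pool.Agent.Work.MP_a2ab48_an.NotHomeo

open Set Topology

namespace Pool.Agent.Work.MP_a2ab48_an

theorem zeroSet_p0 : zeroSet p0 = Y := by
  ext x
  change value p0 x = 0 ↔ x 0 ^ 2 + x 1 ^ 2 = x 2 ^ 2 + x 3 ^ 2
  rw [value_p0]
  constructor <;> intro h <;> linarith

theorem zeroSet_p1 : zeroSet p1 = Z := by
  ext x
  change value p1 x = 0 ↔ _ = _
  rw [value_p1]

theorem isEmpty_homeo : IsEmpty (zeroSet p0 ≃ₜ zeroSet p1) :=
  ⟨fun f => not_homeo (((Homeomorph.setCongr zeroSet_p0).symm.trans f).trans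
    (Homeomorph.setCongr zeroSet_p1))⟩

/-- A bi-Lipschitz bijection is a homeomorphism. -/
theorem BiLipschitzEquivalent.nonempty_homeo {n m : ℕ} {A : Set (Rn n)} {B : Set (Rn m)}
    (h : BiLipschitzEquivalent A B) : Nonempty (A ≃ₜ B) := by
  obtain ⟨f, L, hL, hf⟩ := h
  have hL0 : 0 < L := by linarith
  refine ⟨⟨f, ?_, ?_⟩⟩
  · have : LipschitzWith L.toNNReal f := by
      apply LipschitzWith.of_dist_le_mul
      intro x y
      rw [Real.coe_toNNReal L hL0.le]
      exact (hf x y).2
    exact this.continuous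
  · have : LipschitzWith L.toNNReal f.symm := by
      apply LipschitzWith.of_dist_le_mul
      intro x y
      rw [Real.coe_toNNReal L hL0.le]
      have h1 := (hf (f.symm x) (f.symm y)).1
      rw [f.apply_symm_apply, f.apply_symm_apply, inv_mul_le_iff₀ hL0] at h1
      exact h1
    exact this.continuous

theorem BiLipschitzEquivalent.symm {n m : ℕ} {A : Set (Rn n)} {B : Set (Rn m)}
    (h : BiLipschitzEquivalent A B) : BiLipschitzEquivalent B A := by
  obtain ⟨f, L, hL, hf⟩ := h
  have hL0 : 0 < L := by linarith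
  refine ⟨f.symm, L, hL, fun x y => ?_⟩
  have h1 := hf (f.symm x) (f.symm y)
  rw [f.apply_symm_apply, f.apply_symm_apply] at h1
  constructor
  · rw [inv_mul_le_iff₀ hL0]
    exact h1.2
  · rw [← inv_mul_le_iff₀ hL0]
    exact h1.1

end Pool.Agent.Work.MP_a2ab48_an
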