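import Mathlib

open Metric Set

namespace Pool.Agent.Work.MP_a2ab48_an

section Reach

variable {E : Type*} [PseudoMetricSpace E]

/-- One step of a chain of points: the two points are close compared with the distance to the
boundary at one of them. -/
def Step (Ω : Set E) (x y : E) : Prop :=
  x ∈ Ω ∧ y ∈ Ω ∧
    (dist x y < infDist x (frontier Ω) / 2 ∨ dist x y < infDist y (frontier Ω) / 2)

/-- `y` can be reached from `x` in `m` steps. -/
def Reach (Ω : Set E) (m : ℕ) (x y : E) : Prop :=
  ∃ c : ℕ → E, c 0 = x ∧ c m = y ∧ ∀ i < m, Step Ω (c i) (c (i + 1))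

theorem Step.symm {Ω : Set E} {x y : E} (h : Step Ω x y) : Step Ω y x := by
  obtain ⟨h1, h2, h3⟩ := h
  refine ⟨h2, h1, ?_⟩
  rw [dist_comm y x]
  exact h3.symm

theorem Reach.symm {Ω : Set E} {m : ℕ} {x y : E} (h : Reach Ω m x y) : Reach Ω m y x := by
  obtain ⟨c, h0, hm, hc⟩ := h
  refine ⟨fun i => c (m - i), by simpa using hm, by simpa using h0, fun i hi => ?_⟩
  have h1 := (hc (m - (i + 1)) (by omega)).symm
  have h2 : m - (i + 1) + 1 = m - i := by omega
  rw [h2] at h1
  exact h1

theorem Reach.trans {Ω : Set E} {m m' : ℕ} {x y z : E} (h : Reach Ω m x y)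
    (h' : Reach Ω m' y z) : Reach Ω (m + m') x z := by
  obtain ⟨c, h0, hm, hc⟩ := h
  obtain ⟨c', h0', hm', hc'⟩ := h'
  refine ⟨fun i => if i < m then c i else c' (i - m), ?_, ?_, fun i hi => ?_⟩
  · by_cases hm0 : 0 < m
    · simp [hm0, h0]
    · have : m = 0 := by omega
      subst this
      simp [h0', ← hm, h0]
  · simp [hm']
  · by_cases h1 : i + 1 < m
    · simp only [h1, show i < m by omega, if_true]
      exact hc i (by omega)
    · by_cases h2 : i < m
      · have h3 : i + 1 = m := by omega
        simp only [h2, h1, if_true, if_false]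
        have h4 := hc i h2
        rw [h3, hm] at h4
        rw [h3]
        simpa [h0'] using h4
      · simp only [h1, h2, if_false]
        have h4 := hc' (i - m) (by omega)
        have h5 : i + 1 - m = i - m + 1 := by omega
        rw [h5]
        exact h4

/-- A Lipschitz path staying away from the boundary gives a chain with a controlled number of
steps. -/
theorem reach_of_path {Ω : Set E} {γ : ℝ → E} {Λ ρ : ℝ} {m : ℕ} (hm : 0 < m)
    (hΩ : ∀ t ∈ Icc (0 : ℝ) 1, γ t ∈ Ω) (hρ : ∀ t ∈ Icc (0 : ℝ) 1, ρ ≤ infDist (γ t) (frontier Ω))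
    (hL : ∀ s ∈ Icc (0 : ℝ) 1, ∀ t ∈ Icc (0 : ℝ) 1, dist (γ s) (γ t) ≤ Λ * |s - t|)
    (hmΛ : 2 * Λ < m * ρ) : Reach Ω m (γ 0) (γ 1) := by
  have hm' : (0 : ℝ) < m := by exact_mod_cast hm
  have hmem : ∀ i : ℕ, i ≤ m → (i : ℝ) / m ∈ Icc (0 : ℝ) 1 := by
    intro i hi
    have : (i : ℝ) ≤ m := by exact_mod_cast hi
    exact ⟨by positivity, (div_le_one hm').mpr this⟩
  refine ⟨fun i => γ (i / m), by simp, by simp [hm'.ne'], fun i hi => ?_⟩
  have h1 := hmem i (by omega)
  have h2 := hmem (i + 1) (by omega)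
  refine ⟨hΩ _ h1, hΩ _ h2, Or.inl ?_⟩
  calc dist (γ (i / m)) (γ ((i + 1 : ℕ) / m)) ≤ Λ * |(i : ℝ) / m - ((i + 1 : ℕ) : ℝ) / m| :=
        hL _ h1 _ h2
    _ = Λ / m := by
        have : (i : ℝ) / m - ((i + 1 : ℕ) : ℝ) / m = -(1 / m) := by
          push_cast
          field_simp
          ring
        rw [this, abs_neg, abs_of_pos (by positivity)]
        ring
    _ < ρ / 2 := by
        rw [div_lt_iff₀ hm']
        linarith
    _ ≤ infDist (γ (i / m)) (frontier Ω) / 2 := by
        have := hρ _ h1
        linarith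

end Reach

section Sets

variable {E : Type*} [NormedAddCommGroup E] [NormedSpace ℝ E]

/-- An open ball around a point of an open set whose radius is at most the distance to the
frontier is contained in the set. -/
theorem ball_subset_of_infDist {Ω : Set E} (hΩ : IsOpen Ω) {x : E} (hx : x ∈ Ω) {r : ℝ}
    (hr : r ≤ infDist x (frontier Ω)) : ball x r ⊆ Ω := by
  intro y hy
  have hr0 : 0 < r := lt_of_le_of_lt dist_nonneg (mem_ball.mp hy)
  have hx' : x ∈ ball x r := mem_ball_self hr0
  have hdisj : Disjoint (frontier Ω) (ball x r) := by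
    rw [Set.disjoint_left]
    intro z hz hzb
    have h1 : infDist x (frontier Ω) ≤ dist x z := infDist_le_dist_of_mem hz
    rw [mem_ball, dist_comm] at hzb
    linarith
  have hpre : IsPreconnected (ball x r) := (convex_ball x r).isPreconnected
  have hcl := isClopen_preimage_val hΩ hdisj
  have : PreconnectedSpace (ball x r) := isPreconnected_iff_preconnectedSpace.mp hpre
  have huniv := hcl.eq_univ ⟨⟨x, hx'⟩, hx⟩
  have : (⟨y, hy⟩ : ball x r) ∈ (Subtype.val ⁻¹' Ω : Set (ball x r)) := by
    rw [huniv]; trivial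
  exact this

theorem Step.joinedIn {Ω : Set E} (hΩ : IsOpen Ω) {x y : E} (h : Step Ω x y) :
    JoinedIn Ω x y := by
  obtain ⟨h1, h2, h3⟩ := h
  rcases h3 with h3 | h3
  · have hd : 0 < infDist x (frontier Ω) := by
      have := dist_nonneg (x := x) (y := y)
      linarith
    have hb := ball_subset_of_infDist hΩ h1 (le_refl (infDist x (frontier Ω)))
    have hxb : x ∈ ball x (infDist x (frontier Ω)) := mem_ball_self hd
    have hyb : y ∈ ball x (infDist x (frontier Ω)) := by
      rw [mem_ball, dist_comm]; linarith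
    exact (((convex_ball x _).isPathConnected ⟨x, hxb⟩).joinedIn x hxb y hyb).mono hb
  · have hd : 0 < infDist y (frontier Ω) := by
      have := dist_nonneg (x := x) (y := y)
      linarith
    have hb := ball_subset_of_infDist hΩ h2 (le_refl (infDist y (frontier Ω)))
    have hyb : y ∈ ball y (infDist y (frontier Ω)) := mem_ball_self hd
    have hxb : x ∈ ball y (infDist y (frontier Ω)) := by
      rw [mem_ball]; linarith
    exact (((convex_ball y _).isPathConnected ⟨y, hyb⟩).joinedIn x hxb y hyb).mono hb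

theorem Reach.joinedIn {Ω : Set E} (hΩ : IsOpen Ω) {m : ℕ} {x y : E} (hx : x ∈ Ω)
    (h : Reach Ω m x y) : JoinedIn Ω x y := by
  obtain ⟨c, h0, hm, hc⟩ := h
  have : ∀ i ≤ m, JoinedIn Ω x (c i) := by
    intro i
    induction i with
    | zero =>
      intro _
      rw [h0]
      exact JoinedIn.refl hx
    | succ i ih =>
      intro hi
      exact (ih (by omega)).trans ((hc i (by omega)).joinedIn hΩ)
  rw [← hm]
  exact this m le_rfl

end Sets

end Pool.Agent.Work.MP_a2ab48_an
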