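import Pool.Agent.Work.MP_a2ab48_an.Quadratic

open Metric Set

namespace Pool.Agent.Work.MP_a2ab48_an

/-- the diagonal quadratic form as a polynomial -/
noncomputable def quadPoly {n : ℕ} (lam : Fin n → ℝ) : MvPolynomial (Fin n) ℝ :=
  ∑ i, MvPolynomial.C (lam i) * MvPolynomial.X i ^ 2

theorem laplacian_apply {n : ℕ} (p : MvPolynomial (Fin n) ℝ) :
    laplacian n p = ∑ i, MvPolynomial.pderiv i (MvPolynomial.pderiv i p) := by
  simp [laplacian]

theorem quadPoly_mem {n : ℕ} {lam : Fin n → ℝ} (h : ∑ i, lam i = 0) : quadPoly lam ∈ V n 2 := by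
  constructor
  · rw [SetLike.mem_coe, MvPolynomial.mem_homogeneousSubmodule]
    apply MvPolynomial.IsHomogeneous.sum
    intro i _
    have h1 := (MvPolynomial.isHomogeneous_C (Fin n) (lam i)).mul
      (MvPolynomial.isHomogeneous_X_pow (R := ℝ) i 2)
    simpa using h1
  · rw [SetLike.mem_coe, LinearMap.mem_ker, laplacian_apply]
    have h1 : ∀ i, MvPolynomial.pderiv i (MvPolynomial.pderiv i (quadPoly lam)) =
        MvPolynomial.C (2 * lam i) := by
      intro i
      unfold quadPoly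
      rw [map_sum, Finset.sum_eq_single i]
      · rw [MvPolynomial.pderiv_C_mul, MvPolynomial.pderiv_pow, MvPolynomial.pderiv_X_self]
        have h2 : (MvPolynomial.C (lam i) * (((2 : ℕ) : MvPolynomial (Fin n) ℝ) *
            MvPolynomial.X i ^ (2 - 1) * 1)) =
            MvPolynomial.C (2 * lam i) * MvPolynomial.X i := by
          rw [map_mul, ← map_natCast MvPolynomial.C]
          simp only [Nat.cast_ofNat, Nat.add_one_sub_one, pow_one, mul_one]
          ring
        rw [h2, MvPolynomial.pderiv_C_mul, MvPolynomial.pderiv_X_self, mul_one]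
      · intro j _ hj
        rw [MvPolynomial.pderiv_C_mul, MvPolynomial.pderiv_pow,
          MvPolynomial.pderiv_X_of_ne hj]
        simp
      · simp
    simp_rw [h1]
    rw [← map_sum, ← Finset.mul_sum, h, mul_zero, map_zero]

/-- the diagonal trace-free quadratic form as an element of `V_{n,2}` -/
noncomputable def quadV {n : ℕ} (lam : Fin n → ℝ) (h : ∑ i, lam i = 0) : V n 2 :=
  ⟨quadPoly lam, quadPoly_mem h⟩

theorem value_quadV {n : ℕ} (lam : Fin n → ℝ) (h : ∑ i, lam i = 0) (x : Rn n) :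
    value (quadV lam h) x = ∑ i, lam i * x i ^ 2 := by
  simp [value, quadV, quadPoly]

theorem value_add {n d : ℕ} (p q : V n d) (x : Rn n) : value (p + q) x = value p x + value q x := by
  simp [value]

theorem value_smul {n d : ℕ} (c : ℝ) (p : V n d) (x : Rn n) :
    value (c • p) x = c * value p x := by
  simp [value]

/-- An element of `V_{n,2}` whose values are those of a diagonal form with at least two positive
and two negative coefficients lies in `H_{n,2}`. -/
theorem mem_H {n : ℕ} {p : V n 2} {lam : Fin n → ℝ} (hp : ∀ x, value p x = ∑ i, lam i * x i ^ 2)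
    {i j k l : Fin n} (hij : i ≠ j) (hi : 0 < lam i) (hj : 0 < lam j) (hkl : k ≠ l)
    (hk : lam k < 0) (hl : lam l < 0) : p ∈ H n 2 := by
  constructor
  · have h1 : posSet p = {x : Rn n | 0 < ∑ i, lam i * x i ^ 2} := by
      ext x
      simp [posSet, hp]
    rw [h1]
    exact isNTA_quadratic lam hij hi hj hk
  · have h1 : negSet p = {x : Rn n | 0 < ∑ i, (-lam i) * x i ^ 2} := by
      ext x
      simp [negSet, hp]
    rw [h1]
    exact isNTA_quadratic (fun i => -lam i) hkl (by simpa using hk) (by simpa using hl)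
      (k := i) (by simpa using hi)

/-- `x₀² + x₁² - x₂² - x₃²` on `ℝ⁵` -/
noncomputable def p0 : V 5 2 := quadV ![1, 1, -1, -1, 0] (by simp [Fin.sum_univ_succ])

/-- `2 (x₀² + x₁² + x₄²) - 3 (x₂² + x₃²)` on `ℝ⁵` -/
noncomputable def p1 : V 5 2 := quadV ![2, 2, -3, -3, 2] (by simp [Fin.sum_univ_succ]; norm_num)

theorem value_p0 (x : Rn 5) : value p0 x = x 0 ^ 2 + x 1 ^ 2 - x 2 ^ 2 - x 3 ^ 2 := by
  rw [p0, value_quadV, Fin.sum_univ_five]
  simp
  ring

theorem value_p1 (x : Rn 5) :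
    value p1 x = 2 * (x 0 ^ 2 + x 1 ^ 2 + x 4 ^ 2) - 3 * (x 2 ^ 2 + x 3 ^ 2) := by
  rw [p1, value_quadV, Fin.sum_univ_five]
  simp
  ring

theorem segment_mem (t : ℝ) (ht : t ∈ Icc (0 : ℝ) 1) : (1 - t) • p0 + t • p1 ∈ H 5 2 := by
  have hv : ∀ x, value ((1 - t) • p0 + t • p1) x =
      ∑ i, (![1 + t, 1 + t, -1 - 2 * t, -1 - 2 * t, 2 * t] : Fin 5 → ℝ) i * x i ^ 2 := by
    intro x
    rw [value_add, value_smul, value_smul, value_p0, value_p1, Fin.sum_univ_five]
    simp
    ring
  obtain ⟨h0, h1⟩ := ht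
  refine mem_H hv (i := 0) (j := 1) (k := 2) (l := 3) (by decide) ?_ ?_ (by decide) ?_ ?_
  · simp; linarith
  · simp; linarith
  · simp; linarith
  · simp; linarith

instance (n d : ℕ) : IsModuleTopology ℝ (V n d) := ⟨rfl⟩

theorem mem_component : p1 ∈ connectedComponentIn (H 5 2) p0 := by
  have : ContinuousAdd (V 5 2) := IsModuleTopology.toContinuousAdd ℝ (V 5 2)
  have : ContinuousSMul ℝ (V 5 2) := inferInstance
  have hcont : Continuous (fun t : ℝ => (1 - t) • p0 + t • p1) := by fun_prop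
  have hconn : IsPreconnected ((fun t : ℝ => (1 - t) • p0 + t • p1) '' Icc (0 : ℝ) 1) :=
    isPreconnected_Icc.image _ hcont.continuousOn
  have hsub : ((fun t : ℝ => (1 - t) • p0 + t • p1) '' Icc (0 : ℝ) 1) ⊆ H 5 2 := by
    rintro _ ⟨t, ht, rfl⟩
    exact segment_mem t ht
  have h0 : p0 ∈ ((fun t : ℝ => (1 - t) • p0 + t • p1) '' Icc (0 : ℝ) 1) :=
    ⟨0, by simp, by simp⟩
  have h1 : p1 ∈ ((fun t : ℝ => (1 - t) • p0 + t • p1) '' Icc (0 : ℝ) 1) :=
    ⟨1, by simp, by simp⟩
  exact hconn.subset_connectedComponentIn h0 hsub h1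

end Pool.Agent.Work.MP_a2ab48_an
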