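import Mathlib

/-!
# Definitions for the problem on zero sets of homogeneous harmonic polynomials

`V_{n,d}`, NTA domains, `H_{n,d}`, zero sets and bi-Lipschitz equivalence.
-/

open Metric Set

namespace Pool.Agent.Work.MP_a2ab48_an

/-- `ℝⁿ` with the Euclidean norm. -/
abbrev Rn (n : ℕ) : Type := EuclideanSpace ℝ (Fin n)

/-- The Laplacian `∑ ∂²/∂x_i²` on real polynomials in `n` variables. -/
noncomputable def laplacian (n : ℕ) : MvPolynomial (Fin n) ℝ →ₗ[ℝ] MvPolynomial (Fin n) ℝ :=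
  ∑ i, (MvPolynomial.pderiv i).toLinearMap ∘ₗ (MvPolynomial.pderiv i).toLinearMap

/-- `V_{n,d}`: the real vector space of homogeneous harmonic polynomials of degree `d` on `ℝⁿ`
(together with `0`). -/
noncomputable def V (n d : ℕ) : Submodule ℝ (MvPolynomial (Fin n) ℝ) :=
  MvPolynomial.homogeneousSubmodule (Fin n) ℝ d ⊓ LinearMap.ker (laplacian n)

/-- The topology of the finite-dimensional real vector space `V_{n,d}`: the finest topology making
it a topological vector space, which in finite dimension is the usual (norm) topology. -/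
noncomputable instance instTopologicalSpaceV (n d : ℕ) : TopologicalSpace (V n d) :=
  moduleTopology ℝ (V n d)

/-- The value `p(x)`. -/
noncomputable def value {n d : ℕ} (p : V n d) (x : Rn n) : ℝ :=
  MvPolynomial.eval (fun i => x i) (p : MvPolynomial (Fin n) ℝ)

/-- `Ω_p⁺ = {p > 0}`. -/
def posSet {n d : ℕ} (p : V n d) : Set (Rn n) := {x | 0 < value p x}

/-- `Ω_p⁻ = {p < 0}`. -/
def negSet {n d : ℕ} (p : V n d) : Set (Rn n) := {x | value p x < 0}

/-- `Σ_p = {p = 0}`. -/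
def zeroSet {n d : ℕ} (p : V n d) : Set (Rn n) := {x | value p x = 0}

/-- The distance `inf {|a - b| : a ∈ A, b ∈ B}` between two sets. -/
noncomputable def setDist {n : ℕ} (A B : Set (Rn n)) : ℝ :=
  sInf {t : ℝ | ∃ a ∈ A, ∃ b ∈ B, t = dist a b}

/-- `x` and `y` can be joined by a chain of `m` balls `B_i ⊆ Ω`, consecutive ones intersecting,
with `M⁻¹ diam B_i ≤ dist(B_i, ∂Ω) ≤ M diam B_i` (the first ball contains `x`, the last `y`). -/
def JoinedByBalls {n : ℕ} (Ω : Set (Rn n)) (M : ℝ) (m : ℕ) (x y : Rn n) : Prop :=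
  ∃ (c : ℕ → Rn n) (r : ℕ → ℝ),
    (∀ i < m, 0 < r i ∧ ball (c i) (r i) ⊆ Ω ∧
      M⁻¹ * diam (ball (c i) (r i)) ≤ setDist (ball (c i) (r i)) (frontier Ω) ∧
      setDist (ball (c i) (r i)) (frontier Ω) ≤ M * diam (ball (c i) (r i))) ∧
    (∀ i, i + 1 < m → (ball (c i) (r i) ∩ ball (c (i + 1)) (r (i + 1))).Nonempty) ∧
    0 < m ∧ x ∈ ball (c 0) (r 0) ∧ y ∈ ball (c (m - 1)) (r (m - 1))

/-- NTA domains (Jerison-Kenig), with the corkscrew and Harnack chain conditions at all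
scales. -/
structure IsNTA {n : ℕ} (Ω : Set (Rn n)) : Prop where
  isOpen : IsOpen Ω
  isConnected : IsConnected Ω
  exists_const : ∃ M : ℝ, 1 < M ∧
    (∀ Q ∈ frontier Ω, ∀ r : ℝ, 0 < r →
      (∃ A ∈ Ω, dist A Q < r ∧ r / M < infDist A (frontier Ω)) ∧
      (∃ A' ∈ (closure Ω)ᶜ, dist A' Q < r ∧ r / M < infDist A' (frontier Ω))) ∧
    (∀ k : ℕ, 1 ≤ k → ∀ ε : ℝ, 0 < ε → ∀ x ∈ Ω, ∀ y ∈ Ω,
      ε < infDist x (frontier Ω) → ε < infDist y (frontier Ω) → dist x y < 2 ^ k * ε →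
      ∃ m : ℕ, (m : ℝ) ≤ M * k ∧ JoinedByBalls Ω M m x y)

/-- `H_{n,d}`: the set of `p ∈ V_{n,d}` such that `Ω_p⁺` and `Ω_p⁻` are NTA domains. -/
def H (n d : ℕ) : Set (V n d) := {p | IsNTA (posSet p) ∧ IsNTA (negSet p)}

/-- Bi-Lipschitz equivalence of two subsets of Euclidean spaces. -/
def BiLipschitzEquivalent {n m : ℕ} (A : Set (Rn n)) (B : Set (Rn m)) : Prop :=
  ∃ f : A ≃ B, ∃ L : ℝ, 1 ≤ L ∧ ∀ x y : A,
    L⁻¹ * dist (x : Rn n) y ≤ dist (f x : Rn m) (f y) ∧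
    dist (f x : Rn m) (f y) ≤ L * dist (x : Rn n) y

end Pool.Agent.Work.MP_a2ab48_an
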