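import Mathlib

open Set

namespace Pool.Agent.Work.MP_a2ab48_an

variable {U : Type*} [NormedAddCommGroup U] [InnerProductSpace ℝ U]

/-- If unit vectors `a`, `b` are given, then `b = cos θ a + sin θ w` for a unit vector `w`
orthogonal to `a`, with a controlled angle `θ`. -/
theorem exists_rotation (h2 : ∀ u : U, ∃ w : U, ‖w‖ = 1 ∧ inner ℝ u w = 0) {a b : U}
    (ha : ‖a‖ = 1) (hb : ‖b‖ = 1) :
    ∃ (w : U) (θ : ℝ), ‖w‖ = 1 ∧ inner ℝ a w = 0 ∧ 0 ≤ θ ∧
      b = Real.cos θ • a + Real.sin θ • w ∧ θ ≤ Real.pi / 2 * ‖a - b‖ := by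
  set c : ℝ := inner ℝ a b with hc
  have hc1 : |c| ≤ 1 := by
    have := abs_real_inner_le_norm a b
    rwa [ha, hb, one_mul] at this
  obtain ⟨hcl, hcr⟩ := abs_le.mp hc1
  have hcos : Real.cos (Real.arccos c) = c := Real.cos_arccos hcl hcr
  have hsin : Real.sin (Real.arccos c) = Real.sqrt (1 - c ^ 2) := Real.sin_arccos c
  set z : U := b - c • a with hz
  have hza : inner ℝ a z = 0 := by
    rw [hz, inner_sub_right, inner_smul_right, real_inner_self_eq_norm_sq, ha, ← hc]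
    ring
  have hzn : ‖z‖ ^ 2 = 1 - c ^ 2 := by
    rw [hz, norm_sub_sq_real, hb, norm_smul, ha, inner_smul_right, real_inner_comm, ← hc,
      Real.norm_eq_abs, mul_one, sq_abs]
    ring
  have hzn' : Real.sqrt (1 - c ^ 2) = ‖z‖ := by
    rw [← hzn, Real.sqrt_sq (norm_nonneg z)]
  have hθ0 : 0 ≤ Real.arccos c := Real.arccos_nonneg c
  have hθ : Real.arccos c ≤ Real.pi / 2 * ‖a - b‖ := by
    have h1 : ‖a - b‖ ^ 2 = 2 - 2 * c := by
      rw [norm_sub_sq_real, ha, hb, ← hc]; ring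
    have h2 : c ≤ 1 - 2 / Real.pi ^ 2 * Real.arccos c ^ 2 := by
      have := Real.cos_le_one_sub_mul_cos_sq (x := Real.arccos c)
        (by rw [abs_of_nonneg hθ0]; exact Real.arccos_le_pi c)
      rwa [hcos] at this
    have hpi := Real.pi_pos
    have h3 : Real.arccos c ^ 2 ≤ (Real.pi / 2 * ‖a - b‖) ^ 2 := by
      rw [mul_pow, h1]
      have : 2 / Real.pi ^ 2 * Real.arccos c ^ 2 ≤ 1 - c := by linarith
      rw [div_mul_eq_mul_div, div_le_iff₀ (by positivity)] at this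
      nlinarith
    exact le_of_sq_le_sq h3 (by positivity)
  by_cases hz0 : z = 0
  · obtain ⟨w, hw1, hw2⟩ := h2 a
    refine ⟨w, Real.arccos c, hw1, hw2, hθ0, ?_, hθ⟩
    rw [hcos, hsin, hzn', hz0, norm_zero, zero_smul, add_zero]
    rw [hz] at hz0
    exact sub_eq_zero.mp hz0
  · have hzp : ‖z‖ ≠ 0 := norm_ne_zero_iff.mpr hz0
    refine ⟨‖z‖⁻¹ • z, Real.arccos c, ?_, ?_, hθ0, ?_, hθ⟩
    · rw [norm_smul, norm_inv, norm_norm, inv_mul_cancel₀ hzp]
    · rw [inner_smul_right, hza, mul_zero]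
    · rw [hcos, hsin, hzn', smul_smul, mul_inv_cancel₀ hzp, one_smul, hz]
      abel

/-- A Lipschitz path from `a` to `b` along which the norm does not drop below the minimum of the
norms of the end points. -/
theorem exists_path (h2 : ∀ u : U, ∃ w : U, ‖w‖ = 1 ∧ inner ℝ u w = 0) {a b : U}
    (ha : a ≠ 0) (hb : b ≠ 0) :
    ∃ u : ℝ → U, u 0 = a ∧ u 1 = b ∧ (∀ t ∈ Icc (0 : ℝ) 1, min ‖a‖ ‖b‖ ≤ ‖u t‖) ∧
      ∀ s ∈ Icc (0 : ℝ) 1, ∀ t ∈ Icc (0 : ℝ) 1, ‖u s - u t‖ ≤ 8 * ‖a - b‖ * |s - t| := by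
  have hna : 0 < ‖a‖ := norm_pos_iff.mpr ha
  have hnb : 0 < ‖b‖ := norm_pos_iff.mpr hb
  set a' : U := ‖a‖⁻¹ • a with ha'
  set b' : U := ‖b‖⁻¹ • b with hb'
  have ha1 : ‖a'‖ = 1 := by
    rw [ha', norm_smul, norm_inv, norm_norm, inv_mul_cancel₀ hna.ne']
  have hb1 : ‖b'‖ = 1 := by
    rw [hb', norm_smul, norm_inv, norm_norm, inv_mul_cancel₀ hnb.ne']
  have haa : ‖a‖ • a' = a := by
    rw [ha', smul_smul, mul_inv_cancel₀ hna.ne', one_smul]
  have hbb : ‖b‖ • b' = b := by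
    rw [hb', smul_smul, mul_inv_cancel₀ hnb.ne', one_smul]
  clear_value a' b'
  obtain ⟨w, θ, hw, haw, hθ0, hbθ, hθ⟩ := exists_rotation h2 ha1 hb1
  set r : ℝ → ℝ := fun t => (1 - t) * ‖a‖ + t * ‖b‖ with hr
  set d : ℝ → U := fun t => Real.cos (t * θ) • a' + Real.sin (t * θ) • w with hd
  have hdn : ∀ t, ‖d t‖ = 1 := by
    intro t
    have : ‖d t‖ ^ 2 = 1 := by
      rw [hd]
      simp only
      rw [norm_add_sq_real, norm_smul, norm_smul, ha1, hw, inner_smul_left, inner_smul_right, haw]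
      simp only [Real.norm_eq_abs, mul_one, sq_abs, mul_zero, add_zero]
      rw [add_comm]
      exact Real.sin_sq_add_cos_sq _
    nlinarith [norm_nonneg (d t)]
  have hab : |‖a‖ - ‖b‖| ≤ ‖a - b‖ := abs_norm_sub_norm_le a b
  have hmax : max ‖a‖ ‖b‖ * ‖a' - b'‖ ≤ 2 * ‖a - b‖ := by
    rcases le_total ‖a‖ ‖b‖ with h | h
    · rw [max_eq_right h]
      have h1 : ‖b‖ * ‖a' - b'‖ = ‖‖b‖ • a' - b‖ := by
        rw [← norm_smul_of_nonneg hnb.le, smul_sub, hbb]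
      rw [h1]
      calc ‖‖b‖ • a' - b‖ = ‖(‖b‖ - ‖a‖) • a' + (a - b)‖ := by
            rw [sub_smul, haa]; congr 1; abel
        _ ≤ ‖(‖b‖ - ‖a‖) • a'‖ + ‖a - b‖ := norm_add_le _ _
        _ ≤ 2 * ‖a - b‖ := by
            rw [norm_smul, ha1, mul_one, Real.norm_eq_abs, abs_sub_comm]
            linarith
    · rw [max_eq_left h]
      have h1 : ‖a‖ * ‖a' - b'‖ = ‖a - ‖a‖ • b'‖ := by
        rw [← norm_smul_of_nonneg hna.le, smul_sub, haa]
      rw [h1]
      calc ‖a - ‖a‖ • b'‖ = ‖(a - b) + (‖b‖ - ‖a‖) • b'‖ := by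
            rw [sub_smul, hbb]; congr 1; abel
        _ ≤ ‖a - b‖ + ‖(‖b‖ - ‖a‖) • b'‖ := norm_add_le _ _
        _ ≤ 2 * ‖a - b‖ := by
            rw [norm_smul, hb1, mul_one, Real.norm_eq_abs, abs_sub_comm]
            linarith
  refine ⟨fun t => r t • d t, ?_, ?_, ?_, ?_⟩
  · simp [hr, hd, haa]
  · simp only [hr, hd, sub_self, zero_mul, one_mul, zero_add]
    rw [← hbθ, hbb]
  · intro t ht
    rw [norm_smul, hdn, mul_one, Real.norm_eq_abs]
    refine le_trans ?_ (le_abs_self _)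
    have h1 := min_le_left ‖a‖ ‖b‖
    have h2 := min_le_right ‖a‖ ‖b‖
    obtain ⟨ht0, ht1⟩ := ht
    simp only [hr]
    nlinarith
  · intro s hs t ht
    have hds : ‖d s - d t‖ ≤ 2 * (θ * |s - t|) := by
      have : d s - d t = (Real.cos (s * θ) - Real.cos (t * θ)) • a'
          + (Real.sin (s * θ) - Real.sin (t * θ)) • w := by
        simp only [hd]
        module
      rw [this]
      refine (norm_add_le _ _).trans ?_
      rw [norm_smul, norm_smul, ha1, hw, mul_one, mul_one, Real.norm_eq_abs, Real.norm_eq_abs]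
      have h1 := Real.abs_cos_sub_cos_le (s * θ) (t * θ)
      have h2 := Real.abs_sin_sub_sin_le (s * θ) (t * θ)
      have h3 : |s * θ - t * θ| = θ * |s - t| := by
        rw [← sub_mul, abs_mul, abs_of_nonneg hθ0, mul_comm]
      rw [h3] at h1 h2
      linarith
    have hrt : 0 ≤ r t ∧ r t ≤ max ‖a‖ ‖b‖ := by
      obtain ⟨ht0, ht1⟩ := ht
      have h1 := le_max_left ‖a‖ ‖b‖
      have h2 := le_max_right ‖a‖ ‖b‖
      simp only [hr]
      constructor
      · have : 0 ≤ 1 - t := by linarith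
        positivity
      · nlinarith
    have hrs : |r s - r t| ≤ ‖a - b‖ * |s - t| := by
      have : r s - r t = (‖b‖ - ‖a‖) * (s - t) := by simp only [hr]; ring
      rw [this, abs_mul, abs_sub_comm]
      gcongr
    have heq : r s • d s - r t • d t = (r s - r t) • d s + r t • (d s - d t) := by module
    rw [heq]
    have hpi : Real.pi ≤ 3.5 := by have := Real.pi_lt_d2; linarith
    have hθm : max ‖a‖ ‖b‖ * θ ≤ 3.5 * ‖a - b‖ := by
      have h1 : 0 ≤ max ‖a‖ ‖b‖ := le_trans hna.le (le_max_left _ _)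
      calc max ‖a‖ ‖b‖ * θ ≤ max ‖a‖ ‖b‖ * (Real.pi / 2 * ‖a' - b'‖) := by gcongr
        _ = Real.pi / 2 * (max ‖a‖ ‖b‖ * ‖a' - b'‖) := by ring
        _ ≤ Real.pi / 2 * (2 * ‖a - b‖) := by gcongr
        _ = Real.pi * ‖a - b‖ := by ring
        _ ≤ 3.5 * ‖a - b‖ := by gcongr
    calc ‖(r s - r t) • d s + r t • (d s - d t)‖
        ≤ ‖(r s - r t) • d s‖ + ‖r t • (d s - d t)‖ := norm_add_le _ _
      _ = |r s - r t| + r t * ‖d s - d t‖ := by
          rw [norm_smul, norm_smul, hdn, mul_one, Real.norm_eq_abs, Real.norm_eq_abs,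
            abs_of_nonneg hrt.1]
      _ ≤ ‖a - b‖ * |s - t| + max ‖a‖ ‖b‖ * (2 * (θ * |s - t|)) := by
          gcongr
          exact hrt.2
      _ = ‖a - b‖ * |s - t| + 2 * (max ‖a‖ ‖b‖ * θ) * |s - t| := by ring
      _ ≤ ‖a - b‖ * |s - t| + 2 * (3.5 * ‖a - b‖) * |s - t| := by gcongr
      _ = 8 * ‖a - b‖ * |s - t| := by ring

end Pool.Agent.Work.MP_a2ab48_an
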