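import Pool.Agent.Work.MP_a2ab48_an.Split
import Pool.Agent.Work.MP_a2ab48_an.Rotate

open Metric Set

namespace Pool.Agent.Work.MP_a2ab48_an

namespace Split

variable {E U V : Type*} [NormedAddCommGroup E] [NormedSpace ℝ E]
    [NormedAddCommGroup U] [InnerProductSpace ℝ U] [NormedAddCommGroup V]
    [InnerProductSpace ℝ V] (D : Split E U V)

/-- growth rate of the dyadic chain -/
noncomputable def eta : ℝ := 1 / (4 * D.L * D.C)

theorem eta_pos : 0 < D.eta := by
  have := D.L_pos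
  have := D.C_pos
  unfold eta
  positivity

theorem reach_up [Nontrivial U] {x : E} (hx : x ∈ D.Om) {w : U} (hw : ‖w‖ = 1)
    (hup : ∀ τ : ℝ, 0 ≤ τ → ‖D.P (x + τ • D.S w)‖ = ‖D.P x‖ + τ ∧ D.M (x + τ • D.S w) = D.M x)
    {T : ℝ} (hT : 0 ≤ T) {J : ℕ} (hJ : T ≤ ((1 + D.eta) ^ J - 1) * D.F x) :
    Reach D.Om J x (x + T • D.S w) := by
  have hF : 0 < D.F x := D.mem_Om.mp hx
  have hη := D.eta_pos
  have hL := D.L_pos
  have hC := D.C_pos
  set τ : ℕ → ℝ := fun j => min (((1 + D.eta) ^ j - 1) * D.F x) T with hτ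
  have hτ0 : ∀ j, 0 ≤ τ j := by
    intro j
    refine le_min ?_ hT
    have : (1 : ℝ) ≤ (1 + D.eta) ^ j := one_le_pow₀ (by linarith)
    have : 0 ≤ (1 + D.eta) ^ j - 1 := by linarith
    positivity
  have hFj : ∀ j, D.F (x + τ j • D.S w) = D.F x + τ j := by
    intro j
    have := hup (τ j) (hτ0 j)
    rw [F, this.1, this.2, F]
    ring
  have hmem : ∀ j, x + τ j • D.S w ∈ D.Om := by
    intro j
    rw [D.mem_Om, hFj]
    have := hτ0 j
    linarith
  have hstep : ∀ j, |τ j - τ (j + 1)| ≤ D.eta * (D.F x + τ j) := by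
    intro j
    have hle : ((1 + D.eta) ^ j - 1) * D.F x ≤ ((1 + D.eta) ^ (j + 1) - 1) * D.F x := by
      have : (1 + D.eta) ^ j ≤ (1 + D.eta) ^ (j + 1) := pow_le_pow_right₀ (by linarith) (by omega)
      gcongr
    have hmono : τ j ≤ τ (j + 1) := min_le_min_right T hle
    rw [abs_sub_comm, abs_of_nonneg (by linarith)]
    rcases le_total (((1 + D.eta) ^ j - 1) * D.F x) T with h | h
    · have h1 : τ j = ((1 + D.eta) ^ j - 1) * D.F x := min_eq_left h
      have h2 : τ (j + 1) ≤ ((1 + D.eta) ^ (j + 1) - 1) * D.F x := min_le_left _ _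
      rw [h1]
      calc τ (j + 1) - ((1 + D.eta) ^ j - 1) * D.F x
          ≤ ((1 + D.eta) ^ (j + 1) - 1) * D.F x - ((1 + D.eta) ^ j - 1) * D.F x := by linarith
        _ = D.eta * (D.F x + ((1 + D.eta) ^ j - 1) * D.F x) := by ring
    · have h1 : τ j = T := min_eq_right h
      have h2 : τ (j + 1) ≤ T := min_le_right _ _
      have h3 := hτ0 j
      rw [h1] at h3 ⊢
      have : 0 ≤ D.eta * (D.F x + T) := by positivity
      linarith
  refine ⟨fun j => x + τ j • D.S w, ?_, ?_, fun j _ => ⟨hmem j, hmem (j + 1), Or.inl ?_⟩⟩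
  · have : τ 0 = 0 := by simp [hτ, hT]
    simp [this]
  · have : τ J = T := min_eq_right hJ
    simp [this]
  · have h1 : dist (x + τ j • D.S w) (x + τ (j + 1) • D.S w) ≤ D.C * (D.eta * (D.F x + τ j)) := by
      rw [dist_add_left, dist_eq_norm, ← sub_smul, norm_smul, Real.norm_eq_abs, mul_comm]
      have := D.norm_S_le w
      rw [hw, mul_one] at this
      have := hstep j
      gcongr
    have h2 : D.C * (D.eta * (D.F x + τ j)) = (D.F x + τ j) / (4 * D.L) := by
      unfold eta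
      field_simp
    have h3 := D.F_div_le_infDist (x + τ j • D.S w)
    rw [hFj] at h3
    have h4 : (D.F x + τ j) / (4 * D.L) < (D.F x + τ j) / D.L / 2 := by
      have : 0 < D.F x + τ j := by have := hτ0 j; linarith
      rw [div_div, div_lt_div_iff_of_pos_left this (by positivity) (by positivity)]
      linarith
    linarith

set_option maxHeartbeats 1600000 in
/-- The Harnack chain condition in terms of steps. -/
theorem exists_reach [Nontrivial U] [Nontrivial V]
    (h2 : ∀ u : U, ∃ w : U, ‖w‖ = 1 ∧ inner ℝ u w = 0) :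
    ∃ K : ℕ, ∀ k : ℕ, 1 ≤ k → ∀ ε : ℝ, 0 < ε → ∀ x ∈ D.Om, ∀ y ∈ D.Om,
      ε < infDist x (frontier D.Om) → ε < infDist y (frontier D.Om) → dist x y < 2 ^ k * ε →
      ∃ m ≤ K * k, Reach D.Om m x y := by
  have hL := D.L_pos
  have hC := D.C_pos
  have hC1 := D.one_le_C
  have hL1 := D.one_le_L
  have hη := D.eta_pos
  obtain ⟨m1, hm1⟩ := pow_unbounded_of_one_lt 2 (by linarith : (1 : ℝ) < 1 + D.eta)
  obtain ⟨m2, hm2⟩ := pow_unbounded_of_one_lt (1 + 2 * D.L * D.C)
    (by linarith : (1 : ℝ) < 1 + D.eta)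
  obtain ⟨m3, hm3⟩ := exists_nat_gt (2 * (1 + D.C * D.L))
  obtain ⟨m4, hm4⟩ := exists_nat_gt (80 * D.C * D.L)
  refine ⟨2 * m1 + 2 * m2 + m3 + m4, fun k hk ε hε x hx y hy hxε hyε hxy => ?_⟩
  have hm3' : 0 < m3 := by
    have : (0 : ℝ) < m3 := lt_trans (by positivity) hm3
    exact_mod_cast this
  have hm4' : 0 < m4 := by
    have : (0 : ℝ) < m4 := lt_trans (by positivity) hm4
    exact_mod_cast this
  set R : ℝ := 2 ^ k * ε with hR
  have hRpos : 0 < R := by positivity
  set T : ℝ := 2 * D.L * R with hT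
  have hTpos : 0 < T := by positivity
  have h2k : (1 : ℝ) ≤ 2 ^ k := one_le_pow₀ (by norm_num)
  -- number of steps upward
  have hJ : ∀ z ∈ D.Om, ε < infDist z (frontier D.Om) →
      T ≤ ((1 + D.eta) ^ (m1 * k + m2) - 1) * D.F z := by
    intro z hz hzε
    have h1 := D.infDist_le hz
    have hF : ε ≤ D.C * D.F z := by linarith
    have hpow : 2 ^ k * (1 + 2 * D.L * D.C) ≤ (1 + D.eta) ^ (m1 * k + m2) := by
      rw [pow_add, pow_mul]
      gcongr
    have h3 : T ≤ (2 ^ k * (2 * D.L * D.C)) * D.F z := by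
      calc T = 2 ^ k * (2 * D.L) * ε := by rw [hT, hR]; ring
        _ ≤ 2 ^ k * (2 * D.L) * (D.C * D.F z) := by gcongr
        _ = _ := by ring
    refine h3.trans ?_
    have hFz : 0 ≤ D.F z := (D.mem_Om.mp hz).le
    gcongr
    nlinarith
  obtain ⟨wx, hwx, hwx', hupx⟩ := D.exists_up x
  obtain ⟨wy, hwy, hwy', hupy⟩ := D.exists_up y
  have r1 := D.reach_up hx hwx hupx hTpos.le (hJ x hx hxε)
  have r4 := (D.reach_up hy hwy hupy hTpos.le (hJ y hy hyε)).symm
  set x1 := x + T • D.S wx with hx1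
  set y1 := y + T • D.S wy with hy1
  have hPx1 : D.P x1 = D.P x + T • wx := by rw [hx1, map_add, map_smul, D.PS]
  have hPy1 : D.P y1 = D.P y + T • wy := by rw [hy1, map_add, map_smul, D.PS]
  have hMx1 : D.M x1 = D.M x := (hupx T hTpos.le).2
  have hnPx1 : ‖D.P x1‖ = ‖D.P x‖ + T := (hupx T hTpos.le).1
  have hnPy1 : ‖D.P y1‖ = ‖D.P y‖ + T := (hupy T hTpos.le).1
  have hxO : ‖D.M x‖ < ‖D.P x‖ := hx
  have hyO : ‖D.M y‖ < ‖D.P y‖ := hy
  have hdR : ‖y - x‖ ≤ R := by
    rw [← dist_eq_norm, dist_comm]; exact hxy.le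
  have hMyx : ‖D.M y - D.M x‖ ≤ D.L * R := by
    rw [← map_sub]
    refine (D.norm_M_le _).trans ?_
    gcongr
  have hPyx : ‖D.P y - D.P x‖ ≤ D.L * R := by
    rw [← map_sub]
    refine (D.norm_P_le _).trans ?_
    gcongr
  set x2 := y + D.S (D.P x1 - D.P y) with hx2
  -- the segment from x1 to x2
  have hx21 : x2 - x1 = (y - x) + D.S (D.P x - D.P y) := by
    rw [hx2, hx1, hPx1, map_sub, map_add, map_smul, map_sub]
    abel
  have hPx21 : D.P (x2 - x1) = 0 := by
    rw [hx21, map_add, D.PS, map_sub]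
    abel
  have hMx21 : D.M (x2 - x1) = D.M y - D.M x := by
    rw [hx21, map_add, D.MS, map_sub, add_zero]
  have hn21 : ‖x2 - x1‖ ≤ (1 + D.C * D.L) * R := by
    rw [hx21]
    refine (norm_add_le _ _).trans ?_
    have h1 := D.norm_S_le (D.P x - D.P y)
    rw [norm_sub_rev] at h1
    have h3 : D.C * ‖D.P y - D.P x‖ ≤ D.C * (D.L * R) := by gcongr
    nlinarith
  have r2 : Reach D.Om m3 x1 x2 := by
    have hF1 : ∀ t ∈ Icc (0 : ℝ) 1, D.L * R ≤ D.F (x1 + t • (x2 - x1)) := by
      intro t ht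
      rw [F, map_add, map_smul, hPx21, smul_zero, add_zero, hnPx1, map_add, map_smul, hMx1, hMx21]
      have h1 : ‖D.M x + t • (D.M y - D.M x)‖ ≤ ‖D.M x‖ + D.L * R := by
        refine (norm_add_le _ _).trans ?_
        rw [norm_smul, Real.norm_eq_abs, abs_of_nonneg ht.1]
        have : t * ‖D.M y - D.M x‖ ≤ 1 * (D.L * R) := by
          have := ht.2
          have := ht.1
          gcongr
        linarith
      rw [hT]
      linarith
    have hp := reach_of_path (Ω := D.Om) (γ := fun t => x1 + t • (x2 - x1))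
      (Λ := (1 + D.C * D.L) * R) (ρ := R) hm3'
      (fun t ht => D.mem_Om.mpr (lt_of_lt_of_le (by positivity) (hF1 t ht)))
      (fun t ht => by
        refine le_trans ?_ (D.F_div_le_infDist _)
        rw [le_div_iff₀ hL]
        have := hF1 t ht
        linarith)
      (fun s _ t _ => by
        rw [dist_add_left, dist_eq_norm, ← sub_smul, norm_smul, Real.norm_eq_abs, mul_comm]
        gcongr)
      (by nlinarith)
    simpa using hp
  -- the rotation from x2 to y1
  have hPx1ne : D.P x1 ≠ 0 := by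
    rw [← norm_pos_iff, hnPx1]
    have := norm_nonneg (D.P x)
    linarith
  have hPy1ne : D.P y1 ≠ 0 := by
    rw [← norm_pos_iff, hnPy1]
    have := norm_nonneg (D.P y)
    linarith
  obtain ⟨u, hu0, hu1, humin, hulip⟩ := exists_path h2 hPx1ne hPy1ne
  have hab : ‖D.P x1 - D.P y1‖ ≤ 5 * (D.L * R) := by
    rw [hPx1, hPy1]
    have : D.P x + T • wx - (D.P y + T • wy) = (D.P x - D.P y) + (T • wx - T • wy) := by abel
    rw [this]
    refine (norm_add_le _ _).trans ?_
    have h1 : ‖T • wx - T • wy‖ ≤ 2 * T := by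
      refine (norm_sub_le _ _).trans ?_
      rw [norm_smul, norm_smul, hwx, hwy, Real.norm_eq_abs, abs_of_pos hTpos]
      linarith
    have h3 := hPyx
    rw [norm_sub_rev] at h3
    rw [hT] at h1
    linarith
  have r3 : Reach D.Om m4 x2 y1 := by
    have hF1 : ∀ t ∈ Icc (0 : ℝ) 1, D.L * R ≤ D.F (y + D.S (u t - D.P y)) := by
      intro t ht
      rw [F, map_add, map_add, D.PS, D.MS, add_zero, add_sub_cancel]
      have h1 := humin t ht
      rw [hnPx1, hnPy1] at h1
      have h3 : ‖D.M y‖ ≤ ‖D.M x‖ + D.L * R := by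
        have : D.M y = D.M x + (D.M y - D.M x) := by abel
        rw [this]
        refine (norm_add_le _ _).trans ?_
        linarith
      rcases le_total ‖D.P x‖ ‖D.P y‖ with h4 | h4
      · rw [min_eq_left (by linarith)] at h1
        rw [hT] at h1
        linarith
      · rw [min_eq_right (by linarith)] at h1
        rw [hT] at h1
        have : 0 < D.L * R := by positivity
        linarith
    have hp := reach_of_path (Ω := D.Om) (γ := fun t => y + D.S (u t - D.P y))
      (Λ := 40 * D.C * (D.L * R)) (ρ := R) hm4'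
      (fun t ht => D.mem_Om.mpr (lt_of_lt_of_le (by positivity) (hF1 t ht)))
      (fun t ht => by
        refine le_trans ?_ (D.F_div_le_infDist _)
        rw [le_div_iff₀ hL]
        have := hF1 t ht
        linarith)
      (fun s hs t ht => by
        rw [dist_add_left, dist_eq_norm, ← map_sub, sub_sub_sub_cancel_right]
        refine (D.norm_S_le _).trans ?_
        have h1 := hulip s hs t ht
        calc D.C * ‖u s - u t‖ ≤ D.C * (8 * ‖D.P x1 - D.P y1‖ * |s - t|) := by gcongr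
          _ ≤ D.C * (8 * (5 * (D.L * R)) * |s - t|) := by gcongr
          _ = _ := by ring)
      (by nlinarith)
    simp only [hu0, hu1] at hp
    have e1 : y + D.S (D.P y1 - D.P y) = y1 := by
      rw [hPy1, add_sub_cancel_left, map_smul, hy1]
    rw [e1] at hp
    exact hp
  refine ⟨(m1 * k + m2) + m3 + m4 + (m1 * k + m2), ?_, ((r1.trans r2).trans r3).trans r4⟩
  have e2 : m2 ≤ m2 * k := Nat.le_mul_of_pos_right _ hk
  have e3 : m3 ≤ m3 * k := Nat.le_mul_of_pos_right _ hk
  have e4 : m4 ≤ m4 * k := Nat.le_mul_of_pos_right _ hk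
  calc (m1 * k + m2) + m3 + m4 + (m1 * k + m2)
      ≤ (m1 * k + m2 * k) + m3 * k + m4 * k + (m1 * k + m2 * k) := by gcongr
    _ = (2 * m1 + 2 * m2 + m3 + m4) * k := by ring

end Split

end Pool.Agent.Work.MP_a2ab48_an
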