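import Mathlib

open Set Topology unitInterval

namespace Pool.Agent.Work.MP_a2ab48_an

/-- On a star-shaped set every nonvanishing continuous function has a continuous logarithm. -/
theorem exists_log_star {E : Type*} [NormedAddCommGroup E] [NormedSpace ℝ E] {U : Set E} {c : E}
    (hc : c ∈ U) (hstar : ∀ x ∈ U, ∀ t ∈ Icc (0 : ℝ) 1, c + t • (x - c) ∈ U) {g : E → ℂ}
    (hg : ContinuousOn g U) (hg0 : ∀ x ∈ U, g x ≠ 0) :
    ∃ L : E → ℂ, ContinuousOn L U ∧ ∀ x ∈ U, Complex.exp (L x) = g x := by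
  classical
  let Hm : C(I × U, {z : ℂ // z ≠ 0}) :=
    { toFun := fun p => ⟨g (c + (p.1 : ℝ) • ((p.2 : E) - c)),
        hg0 _ (hstar _ p.2.2 _ p.1.2)⟩
      continuous_toFun := by
        apply Continuous.subtype_mk
        have h1 : Continuous fun p : I × U => c + (p.1 : ℝ) • ((p.2 : E) - c) := by fun_prop
        exact hg.comp_continuous h1 (fun p => hstar _ p.2.2 _ p.1.2) }
  let f0 : C(U, ℂ) := ContinuousMap.const U (Complex.log (g c))
  have h0 : ∀ a : U, Hm (0, a) = (fun z : ℂ => (⟨_, z.exp_ne_zero⟩ : {z : ℂ // z ≠ 0})) (f0 a) := by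
    intro a
    apply Subtype.ext
    simp [Hm, f0, Complex.exp_log (hg0 c hc)]
  let Ht := Complex.isCoveringMap_exp.liftHomotopy Hm f0 h0
  have hlift : (fun z : ℂ => (⟨_, z.exp_ne_zero⟩ : {z : ℂ // z ≠ 0})) ∘ Ht = Hm :=
    Complex.isCoveringMap_exp.liftHomotopy_lifts Hm f0 h0
  refine ⟨fun x => if h : x ∈ U then Ht (1, ⟨x, h⟩) else 0, ?_, ?_⟩
  · rw [continuousOn_iff_continuous_domRestrict]
    have : (U.domRestrict fun x => if h : x ∈ U then Ht (1, ⟨x, h⟩) else 0)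
        = fun a : U => Ht (1, a) := by
      ext a
      simp [Set.domRestrict, a.2]
    rw [this]
    fun_prop
  · intro x hx
    simp only [hx, dif_pos]
    have := congrArg Subtype.val (congrFun hlift (1, ⟨x, hx⟩))
    simpa [Hm] using this

/-- Differences of logarithms are constant on preconnected sets. -/
theorem log_diff_const {X : Type*} [TopologicalSpace X] {A : Set X} (hA : IsPreconnected A)
    {L1 L2 : X → ℂ} (h1 : ContinuousOn L1 A) (h2 : ContinuousOn L2 A)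
    (h : ∀ x ∈ A, Complex.exp (L1 x) = Complex.exp (L2 x)) {x y : X} (hx : x ∈ A) (hy : y ∈ A) :
    L1 x - L2 x = L1 y - L2 y := by
  have hT : IsDiscrete ((AddSubgroup.zmultiples (2 * Real.pi * Complex.I : ℂ)) : Set ℂ) :=
    ⟨NormedSpace.discreteTopology_zmultiples _⟩
  refine hA.constant_of_mapsTo hT (h1.sub h2) (fun z hz => ?_) hx hy
  obtain ⟨n, hn⟩ := Complex.exp_eq_exp_iff_exists_int.mp (h z hz)
  rw [SetLike.mem_coe, AddSubgroup.mem_zmultiples_iff]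
  refine ⟨n, ?_⟩
  rw [Pi.sub_apply, hn]
  simp

/-- Gluing logarithms. -/
theorem glue_log {E : Type*} [TopologicalSpace E] {W O1 O2 : Set E} (hO1 : IsOpen O1)
    (hO2 : IsOpen O2) (hW : W ⊆ O1 ∪ O2) (hconn : IsPreconnected (W ∩ O1 ∩ O2)) {g : E → ℂ}
    {L1 L2 : E → ℂ} (h1 : ContinuousOn L1 (W ∩ O1)) (h2 : ContinuousOn L2 (W ∩ O2))
    (e1 : ∀ x ∈ W ∩ O1, Complex.exp (L1 x) = g x) (e2 : ∀ x ∈ W ∩ O2, Complex.exp (L2 x) = g x) :
    ∃ L : E → ℂ, ContinuousOn L W ∧ ∀ x ∈ W, Complex.exp (L x) = g x := by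
  classical
  have s1 : W ∩ O1 ∩ O2 ⊆ W ∩ O1 := inter_subset_left
  have s2 : W ∩ O1 ∩ O2 ⊆ W ∩ O2 := fun x hx => ⟨hx.1.1, hx.2⟩
  obtain ⟨k, hk, hkexp⟩ : ∃ k : ℂ, (∀ x ∈ W ∩ O1 ∩ O2, L1 x = L2 x + k) ∧ Complex.exp k = 1 := by
    rcases (W ∩ O1 ∩ O2).eq_empty_or_nonempty with h | ⟨x0, hx0⟩
    · exact ⟨0, by simp [h], by simp⟩
    · refine ⟨L1 x0 - L2 x0, fun x hx => ?_, ?_⟩
      · have := log_diff_const hconn (h1.mono s1) (h2.mono s2)
          (fun z hz => by rw [e1 z (s1 hz), e2 z (s2 hz)]) hx hx0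
        rw [← this]; ring
      · rw [Complex.exp_sub, e1 x0 (s1 hx0), e2 x0 (s2 hx0)]
        apply div_self
        rw [← e1 x0 (s1 hx0)]
        exact Complex.exp_ne_zero _
  set L : E → ℂ := fun x => if x ∈ O1 then L1 x else L2 x + k with hL
  have eqA : EqOn L L1 (W ∩ O1) := fun x hx => by simp [hL, hx.2]
  have eqB : EqOn L (fun x => L2 x + k) (W ∩ O2) := by
    intro x hx
    by_cases hx1 : x ∈ O1
    · simp only [hL, hx1, if_true]
      exact hk x ⟨⟨hx.1, hx1⟩, hx.2⟩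
    · simp [hL, hx1]
  have cA : ContinuousOn L (W ∩ O1) := h1.congr eqA
  have cB : ContinuousOn L (W ∩ O2) := (h2.add continuousOn_const).congr eqB
  refine ⟨L, fun x hx => ?_, fun x hx => ?_⟩
  · rcases hW hx with h | h
    · exact (continuousWithinAt_inter (hO1.mem_nhds h)).mp (cA x ⟨hx, h⟩)
    · exact (continuousWithinAt_inter (hO2.mem_nhds h)).mp (cB x ⟨hx, h⟩)
  · rcases hW hx with h | h
    · rw [eqA ⟨hx, h⟩, e1 x ⟨hx, h⟩]
    · rw [eqB ⟨hx, h⟩]
      simp only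
      rw [Complex.exp_add, hkexp, mul_one, e2 x ⟨hx, h⟩]

end Pool.Agent.Work.MP_a2ab48_an
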