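import Pool.Agent.Work.MP_a2ab48_an.Defs
import Pool.Agent.Work.MP_a2ab48_an.Harnack

open Metric Set

namespace Pool.Agent.Work.MP_a2ab48_an

theorem setDist_ball_le {n : ℕ} {B : Set (Rn n)} (hB : B.Nonempty) (c : Rn n) {r : ℝ}
    (hr : 0 < r) : setDist (ball c r) B ≤ infDist c B := by
  rw [le_infDist hB]
  intro b hb
  apply csInf_le
  · exact ⟨0, by rintro t ⟨a, -, b, -, rfl⟩; exact dist_nonneg⟩
  · exact ⟨c, mem_ball_self hr, b, hb, rfl⟩

theorem le_setDist_ball {n : ℕ} {B : Set (Rn n)} (hB : B.Nonempty) (c : Rn n) {r : ℝ}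
    (hr : 0 < r) : infDist c B - r ≤ setDist (ball c r) B := by
  obtain ⟨b0, hb0⟩ := hB
  apply le_csInf
  · exact ⟨_, c, mem_ball_self hr, b0, hb0, rfl⟩
  · rintro t ⟨a, ha, b, hb, rfl⟩
    have h1 : infDist c B ≤ dist c b := infDist_le_dist_of_mem hb
    have h2 : dist c b ≤ dist c a + dist a b := dist_triangle _ _ _
    rw [mem_ball, dist_comm] at ha
    linarith

namespace Split

variable {n : ℕ} {U V : Type*}
    [NormedAddCommGroup U] [InnerProductSpace ℝ U] [NormedAddCommGroup V]
    [InnerProductSpace ℝ V] (D : Split (Rn n) U V)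

theorem joinedByBalls_of_reach [Nontrivial U] [Nontrivial (Rn n)] {M : ℝ} (hM : 2 ≤ M) {m : ℕ}
    {x y : Rn n} (hx : x ∈ D.Om) (h : Reach D.Om m x y) :
    JoinedByBalls D.Om M (m + 1) x y := by
  obtain ⟨c, h0, hm, hc⟩ := h
  have hmem : ∀ i ≤ m, c i ∈ D.Om := by
    intro i hi
    rcases Nat.lt_or_ge i m with h1 | h1
    · exact (hc i h1).1
    · have : i = m := by omega
      subst this
      rcases Nat.eq_zero_or_pos i with h2 | h2
      · rw [h2, h0]; exact hx
      · have := (hc (i - 1) (by omega)).2.1
        rwa [Nat.sub_add_cancel h2] at this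
  have hpos : ∀ i ≤ m, 0 < infDist (c i) (frontier D.Om) := by
    intro i hi
    have h1 := D.F_div_le_infDist (c i)
    have h2 := D.mem_Om.mp (hmem i hi)
    have h3 := D.L_pos
    exact lt_of_lt_of_le (by positivity) h1
  have hne : (frontier D.Om).Nonempty := ⟨0, D.zero_mem_frontier⟩
  refine ⟨c, fun i => infDist (c i) (frontier D.Om) / 2, fun i hi => ?_, fun i hi => ?_, by omega,
    ?_, ?_⟩
  · have hp := hpos i (by omega)
    have hr : 0 < infDist (c i) (frontier D.Om) / 2 := by positivity
    refine ⟨hr, ball_subset_of_infDist D.isOpen_Om (hmem i (by omega)) (by linarith), ?_, ?_⟩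
    · rw [Metric.diam_ball_eq _ hr.le]
      have h1 := le_setDist_ball hne (c i) hr
      have h2 : M⁻¹ * (2 * (infDist (c i) (frontier D.Om) / 2))
          ≤ infDist (c i) (frontier D.Om) - infDist (c i) (frontier D.Om) / 2 := by
        rw [inv_mul_le_iff₀ (by linarith)]
        nlinarith
      linarith
    · rw [Metric.diam_ball_eq _ hr.le]
      have h1 := setDist_ball_le hne (c i) hr
      nlinarith
  · obtain ⟨-, -, h3⟩ := hc i (by omega)
    have hp := hpos i (by omega)
    have hp' := hpos (i + 1) (by omega)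
    rcases h3 with h3 | h3
    · exact ⟨c (i + 1), by rw [mem_ball, dist_comm]; exact h3, mem_ball_self (by positivity)⟩
    · exact ⟨c i, mem_ball_self (by positivity), by rw [mem_ball]; exact h3⟩
  · show x ∈ ball (c 0) (infDist (c 0) (frontier D.Om) / 2)
    rw [h0]
    have := hpos 0 (by omega)
    rw [h0] at this
    exact mem_ball_self (half_pos this)
  · show y ∈ ball (c (m + 1 - 1)) (infDist (c (m + 1 - 1)) (frontier D.Om) / 2)
    rw [Nat.add_sub_cancel, hm]
    have := hpos m le_rfl
    rw [hm] at this
    exact mem_ball_self (half_pos this)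

theorem isNTA [Nontrivial U] [Nontrivial V] [Nontrivial (Rn n)]
    (h2 : ∀ u : U, ∃ w : U, ‖w‖ = 1 ∧ inner ℝ u w = 0) : IsNTA D.Om := by
  have hL := D.L_pos
  have hC := D.C_pos
  obtain ⟨K, hK⟩ := D.exists_reach h2
  refine ⟨D.isOpen_Om, ?_, ?_⟩
  · -- connectedness
    apply IsPathConnected.isConnected
    obtain ⟨w, hw, -, hup⟩ := D.exists_up (0 : Rn n)
    have hz : (0 : Rn n) + (1 : ℝ) • D.S w ∈ D.Om := by
      have := hup 1 zero_le_one
      rw [D.mem_Om, F, this.1, this.2]
      simp
    refine ⟨_, hz, fun {y} hy => ?_⟩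
    set x := (0 : Rn n) + (1 : ℝ) • D.S w with hx
    have hpx : 0 < infDist x (frontier D.Om) := by
      have h1 := D.F_div_le_infDist x
      have h3 := D.mem_Om.mp hz
      exact lt_of_lt_of_le (by positivity) h1
    have hpy : 0 < infDist y (frontier D.Om) := by
      have h1 := D.F_div_le_infDist y
      have h3 := D.mem_Om.mp hy
      exact lt_of_lt_of_le (by positivity) h1
    set ε := min (infDist x (frontier D.Om)) (infDist y (frontier D.Om)) / 2 with hε
    have hεpos : 0 < ε := by
      have := lt_min hpx hpy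
      positivity
    have hεx : ε < infDist x (frontier D.Om) := by
      have := min_le_left (infDist x (frontier D.Om)) (infDist y (frontier D.Om))
      linarith
    have hεy : ε < infDist y (frontier D.Om) := by
      have := min_le_right (infDist x (frontier D.Om)) (infDist y (frontier D.Om))
      linarith
    obtain ⟨k, hk⟩ := pow_unbounded_of_one_lt (dist x y / ε) (by norm_num : (1 : ℝ) < 2)
    have hk' : dist x y < 2 ^ (k + 1) * ε := by
      rw [div_lt_iff₀ hεpos] at hk
      have : (2 : ℝ) ^ k * ε ≤ 2 ^ (k + 1) * ε := by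
        gcongr
        · norm_num
        · omega
      linarith
    obtain ⟨m, -, hm⟩ := hK (k + 1) (by omega) ε hεpos x hz y hy hεx hεy hk'
    exact hm.joinedIn D.isOpen_Om hz
  · refine ⟨2 + K + 2 * D.C * D.L, ?_, ?_, ?_⟩
    · have : 0 < 2 * D.C * D.L := by positivity
      have : (0 : ℝ) ≤ K := Nat.cast_nonneg K
      linarith
    · intro Q hQ r hr
      have hQ' : D.F Q = 0 := by
        rw [frontier_Om] at hQ
        exact hQ
      set τ := r / (2 * D.C) with hτ
      have hτpos : 0 < τ := by positivity
      have hτC : τ * D.C = r / 2 := by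
        rw [hτ]; field_simp
      have hτL : r / (2 + K + 2 * D.C * D.L) < τ / D.L := by
        rw [hτ, div_div]
        apply div_lt_div_of_pos_left hr (by positivity)
        have : (0 : ℝ) ≤ K := Nat.cast_nonneg K
        linarith
      constructor
      · obtain ⟨w, hw, -, hup⟩ := D.exists_up Q
        have h := hup τ hτpos.le
        have hF : D.F (Q + τ • D.S w) = τ := by
          rw [F, h.1, h.2]
          rw [F] at hQ'
          linarith
        refine ⟨Q + τ • D.S w, ?_, ?_, ?_⟩
        · rw [D.mem_Om, hF]; exact hτpos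
        · rw [dist_eq_norm, add_sub_cancel_left, norm_smul, Real.norm_eq_abs, abs_of_pos hτpos]
          have h1 := D.norm_S_le w
          rw [hw, mul_one] at h1
          have : τ * ‖D.S w‖ ≤ τ * D.C := by gcongr
          linarith
        · have := D.F_div_le_infDist (Q + τ • D.S w)
          rw [hF] at this
          linarith
      · obtain ⟨w, hw, hdown⟩ := D.exists_down Q
        have h := hdown τ hτpos.le
        have hF : D.F (Q + τ • D.T w) = -τ := by
          rw [F, h.1, h.2]
          rw [F] at hQ'
          linarith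
        refine ⟨Q + τ • D.T w, ?_, ?_, ?_⟩
        · intro hcl
          have hsub : closure D.Om ⊆ {x | ‖D.M x‖ ≤ ‖D.P x‖} :=
            closure_minimal (fun x hx => show ‖D.M x‖ ≤ ‖D.P x‖ from le_of_lt hx) (isClosed_le (by fun_prop) (by fun_prop))
          have h1 : ‖D.M (Q + τ • D.T w)‖ ≤ ‖D.P (Q + τ • D.T w)‖ := hsub hcl
          rw [F] at hF
          linarith
        · rw [dist_eq_norm, add_sub_cancel_left, norm_smul, Real.norm_eq_abs, abs_of_pos hτpos]
          have h1 := D.norm_T_le w
          rw [hw, mul_one] at h1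
          have : τ * ‖D.T w‖ ≤ τ * D.C := by gcongr
          linarith
        · have := D.le_infDist (Q + τ • D.T w)
          rw [hF, abs_neg, abs_of_pos hτpos] at this
          linarith
    · intro k hk ε hε x hx y hy hxε hyε hxy
      obtain ⟨m, hm, hr⟩ := hK k hk ε hε x hx y hy hxε hyε hxy
      refine ⟨m + 1, ?_, D.joinedByBalls_of_reach ?_ hx hr⟩
      · have h1 : (m : ℝ) ≤ K * k := by exact_mod_cast hm
        have h2 : (1 : ℝ) ≤ k := by exact_mod_cast hk
        have h3 : 0 < 2 * D.C * D.L := by positivity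
        push_cast
        nlinarith
      · have : 0 < 2 * D.C * D.L := by positivity
        have : (0 : ℝ) ≤ K := Nat.cast_nonneg K
        linarith

end Split

end Pool.Agent.Work.MP_a2ab48_an
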