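import Pool.Agent.Work.MP_a2ab48_an.NTA

open Metric Set

namespace Pool.Agent.Work.MP_a2ab48_an

/-- In a space of dimension at least two every vector has a unit vector orthogonal to it. -/
theorem exists_orthogonal_unit {U : Type*} [NormedAddCommGroup U] [InnerProductSpace ℝ U]
    [FiniteDimensional ℝ U] (h : 2 ≤ Module.finrank ℝ U) (u : U) :
    ∃ w : U, ‖w‖ = 1 ∧ inner ℝ u w = 0 := by
  have h1 := Submodule.finrank_add_finrank_orthogonal (K := (ℝ ∙ u : Submodule ℝ U))
  have h2 : Module.finrank ℝ (ℝ ∙ u : Submodule ℝ U) ≤ 1 := by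
    have := finrank_span_le_card (R := ℝ) ({u} : Set U)
    simpa using this
  have h3 : 0 < Module.finrank ℝ ((ℝ ∙ u : Submodule ℝ U)ᗮ : Submodule ℝ U) := by omega
  obtain ⟨⟨w, hw⟩, hw0⟩ := Module.finrank_pos_iff_exists_ne_zero.mp h3
  have hw0' : w ≠ 0 := fun h => hw0 (Subtype.ext h)
  have hin : inner ℝ u w = 0 := Submodule.mem_orthogonal_singleton_iff_inner_right.mp hw
  refine ⟨‖w‖⁻¹ • w, ?_, ?_⟩
  · rw [norm_smul, norm_inv, norm_norm, inv_mul_cancel₀ (norm_ne_zero_iff.mpr hw0')]
  · rw [inner_smul_right, hin, mul_zero]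

variable {n : ℕ}

/-- the projection onto the coordinates where `p` holds, scaled by `√|lam i|` -/
noncomputable def projMap (lam : Fin n → ℝ) (p : Fin n → Prop) [DecidablePred p] :
    Rn n →L[ℝ] EuclideanSpace ℝ {i // p i} :=
  LinearMap.toContinuousLinearMap
    { toFun := fun x => WithLp.toLp 2 fun i => Real.sqrt |lam i| * x i
      map_add' := fun x y => by
        ext i
        simp [mul_add]
      map_smul' := fun c x => by
        ext i
        simp
        ring }

/-- the section of `projMap` -/
noncomputable def secMap (lam : Fin n → ℝ) (p : Fin n → Prop) [DecidablePred p] :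
    EuclideanSpace ℝ {i // p i} →L[ℝ] Rn n :=
  LinearMap.toContinuousLinearMap
    { toFun := fun u => WithLp.toLp 2 fun i =>
        if h : p i then (Real.sqrt |lam i|)⁻¹ * u ⟨i, h⟩ else 0
      map_add' := fun x y => by
        ext i
        by_cases h : p i
        · simp [h, mul_add]
        · simp [h]
      map_smul' := fun c x => by
        ext i
        by_cases h : p i
        · simp [h]
          ring
        · simp [h] }

theorem projMap_apply (lam : Fin n → ℝ) (p : Fin n → Prop) [DecidablePred p] (x : Rn n) (i : {i // p i}) :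
    projMap lam p x i = Real.sqrt |lam i| * x i := rfl

theorem secMap_apply (lam : Fin n → ℝ) (p : Fin n → Prop) [DecidablePred p] (u : EuclideanSpace ℝ {i // p i})
    (i : Fin n) : secMap lam p u i = if h : p i then (Real.sqrt |lam i|)⁻¹ * u ⟨i, h⟩ else 0 := rfl

/-- the splitting attached to a diagonal quadratic form -/
noncomputable def quadSplit (lam : Fin n → ℝ) :
    Split (Rn n) (EuclideanSpace ℝ {i // 0 < lam i}) (EuclideanSpace ℝ {i // lam i < 0}) where
  P := projMap lam fun i => 0 < lam i
  M := projMap lam fun i => lam i < 0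
  S := secMap lam fun i => 0 < lam i
  T := secMap lam fun i => lam i < 0
  PS := fun u => by
    ext i
    rw [projMap_apply, secMap_apply, dif_pos i.2]
    have : 0 < |lam i| := abs_pos.mpr i.2.ne'
    have : Real.sqrt |lam i| ≠ 0 := (Real.sqrt_pos.mpr this).ne'
    field_simp
  MS := fun u => by
    ext i
    rw [projMap_apply, secMap_apply, dif_neg (by have := i.2; linarith)]
    simp
  MT := fun u => by
    ext i
    rw [projMap_apply, secMap_apply, dif_pos i.2]
    have : 0 < |lam i| := abs_pos.mpr i.2.ne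
    have : Real.sqrt |lam i| ≠ 0 := (Real.sqrt_pos.mpr this).ne'
    field_simp
  PT := fun u => by
    ext i
    rw [projMap_apply, secMap_apply, dif_neg (by have := i.2; linarith)]
    simp

theorem norm_projMap_sq (lam : Fin n → ℝ) (p : Fin n → Prop) [DecidablePred p] (x : Rn n) :
    ‖projMap lam p x‖ ^ 2 = ∑ i, if p i then |lam i| * x i ^ 2 else 0 := by
  rw [EuclideanSpace.norm_sq_eq]
  have h1 : ∀ i : {i // p i}, ‖projMap lam p x i‖ ^ 2 = |lam i| * x i ^ 2 := by
    intro i
    rw [projMap_apply, Real.norm_eq_abs, sq_abs, mul_pow, Real.sq_sqrt (abs_nonneg _)]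
  simp_rw [h1]
  rw [← Finset.sum_filter]
  exact (Finset.sum_subtype (Finset.univ.filter p) (by simp) (fun i => |lam i| * x i ^ 2)).symm

theorem quadSplit_Om (lam : Fin n → ℝ) :
    (quadSplit lam).Om = {x : Rn n | 0 < ∑ i, lam i * x i ^ 2} := by
  ext x
  have hkey : ‖(quadSplit lam).P x‖ ^ 2 - ‖(quadSplit lam).M x‖ ^ 2 = ∑ i, lam i * x i ^ 2 := by
    have h1 : ‖(quadSplit lam).P x‖ ^ 2 = _ := norm_projMap_sq lam (fun i => 0 < lam i) x
    have h2 : ‖(quadSplit lam).M x‖ ^ 2 = _ := norm_projMap_sq lam (fun i => lam i < 0) x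
    rw [h1, h2, ← Finset.sum_sub_distrib]
    apply Finset.sum_congr rfl
    intro i _
    rcases lt_trichotomy (lam i) 0 with h | h | h
    · rw [if_neg (by linarith), if_pos h, abs_of_neg h]; ring
    · rw [if_neg (by linarith), if_neg (by linarith), h]; ring
    · rw [if_pos h, if_neg (by linarith), abs_of_pos h]; ring
  change ‖(quadSplit lam).M x‖ < ‖(quadSplit lam).P x‖ ↔ 0 < ∑ i, lam i * x i ^ 2
  rw [← hkey]
  have h1 := norm_nonneg ((quadSplit lam).P x)
  have h2 := norm_nonneg ((quadSplit lam).M x)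
  constructor
  · intro h
    nlinarith
  · intro h
    nlinarith

/-- A diagonal quadratic form with at least two positive and at least one negative coefficient
is positive on an NTA domain. -/
theorem isNTA_quadratic (lam : Fin n → ℝ) {i j k : Fin n} (hij : i ≠ j) (hi : 0 < lam i)
    (hj : 0 < lam j) (hk : lam k < 0) : IsNTA {x : Rn n | 0 < ∑ i, lam i * x i ^ 2} := by
  rw [← quadSplit_Om]
  have h2 : 2 ≤ Module.finrank ℝ (EuclideanSpace ℝ {i // 0 < lam i}) := by
    rw [finrank_euclideanSpace]
    have : Nontrivial {i // 0 < lam i} := ⟨⟨i, hi⟩, ⟨j, hj⟩, by simpa using hij⟩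
    exact Fintype.one_lt_card
  have n1 : Nontrivial (EuclideanSpace ℝ {i // 0 < lam i}) :=
    Module.nontrivial_of_finrank_pos (R := ℝ) (by omega)
  have n2 : Nontrivial (EuclideanSpace ℝ {i // lam i < 0}) := by
    apply Module.nontrivial_of_finrank_pos (R := ℝ)
    rw [finrank_euclideanSpace]
    have : Nonempty {i // lam i < 0} := ⟨⟨k, hk⟩⟩
    exact Fintype.card_pos
  have n3 : Nontrivial (Rn n) := by
    apply Module.nontrivial_of_finrank_pos (R := ℝ)
    rw [finrank_euclideanSpace]
    have : Nonempty (Fin n) := ⟨i⟩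
    exact Fintype.card_pos
  exact (quadSplit lam).isNTA (exists_orthogonal_unit h2)

end Pool.Agent.Work.MP_a2ab48_an
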