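import Pool.Agent.Work.MP_a2ab48_an.Chain

open Metric Set

namespace Pool.Agent.Work.MP_a2ab48_an

/-- Data of a cone `{‖M x‖ < ‖P x‖}`. -/
structure Split (E U V : Type*) [NormedAddCommGroup E] [NormedSpace ℝ E]
    [NormedAddCommGroup U] [InnerProductSpace ℝ U] [NormedAddCommGroup V]
    [InnerProductSpace ℝ V] where
  P : E →L[ℝ] U
  M : E →L[ℝ] V
  S : U →L[ℝ] E
  T : V →L[ℝ] E
  PS : ∀ u, P (S u) = u
  MS : ∀ u, M (S u) = 0
  MT : ∀ v, M (T v) = v
  PT : ∀ v, P (T v) = 0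

namespace Split

variable {E U V : Type*} [NormedAddCommGroup E] [NormedSpace ℝ E]
    [NormedAddCommGroup U] [InnerProductSpace ℝ U] [NormedAddCommGroup V]
    [InnerProductSpace ℝ V] (D : Split E U V)

/-- the cone -/
def Om : Set E := {x | ‖D.M x‖ < ‖D.P x‖}

/-- the depth function -/
noncomputable def F (x : E) : ℝ := ‖D.P x‖ - ‖D.M x‖

/-- a Lipschitz constant of the depth function -/
noncomputable def L : ℝ := ‖D.P‖ + ‖D.M‖ + 1

/-- a bound for the sections -/
noncomputable def C : ℝ := ‖D.S‖ + ‖D.T‖ + 1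

theorem L_pos : 0 < D.L := by unfold L; positivity

theorem C_pos : 0 < D.C := by unfold C; positivity

theorem one_le_C : 1 ≤ D.C := by
  unfold C
  have := norm_nonneg D.S
  have := norm_nonneg D.T
  linarith

theorem one_le_L : 1 ≤ D.L := by
  unfold L
  have := norm_nonneg D.P
  have := norm_nonneg D.M
  linarith

theorem norm_P_le (x : E) : ‖D.P x‖ ≤ D.L * ‖x‖ := by
  refine (D.P.le_opNorm x).trans ?_
  gcongr
  unfold L
  have := norm_nonneg D.M
  linarith

theorem norm_M_le (x : E) : ‖D.M x‖ ≤ D.L * ‖x‖ := by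
  refine (D.M.le_opNorm x).trans ?_
  gcongr
  unfold L
  have := norm_nonneg D.P
  linarith

theorem norm_S_le (u : U) : ‖D.S u‖ ≤ D.C * ‖u‖ := by
  refine (D.S.le_opNorm u).trans ?_
  gcongr
  unfold C
  have := norm_nonneg D.T
  linarith

theorem norm_T_le (v : V) : ‖D.T v‖ ≤ D.C * ‖v‖ := by
  refine (D.T.le_opNorm v).trans ?_
  gcongr
  unfold C
  have := norm_nonneg D.S
  linarith

theorem mem_Om {x : E} : x ∈ D.Om ↔ 0 < D.F x := by
  simp [Om, F]

theorem F_sub_le (x y : E) : D.F x - D.F y ≤ D.L * dist x y := by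
  unfold F L
  have h1 : ‖D.P x‖ - ‖D.P y‖ ≤ ‖D.P‖ * ‖x - y‖ := by
    have := D.P.le_opNorm (x - y)
    rw [map_sub] at this
    exact (norm_sub_norm_le _ _).trans this
  have h2 : ‖D.M y‖ - ‖D.M x‖ ≤ ‖D.M‖ * ‖x - y‖ := by
    have := D.M.le_opNorm (x - y)
    rw [map_sub, norm_sub_rev] at this
    exact (norm_sub_norm_le _ _).trans this
  rw [dist_eq_norm]
  have := norm_nonneg (x - y)
  nlinarith

theorem isOpen_Om : IsOpen D.Om :=
  isOpen_lt (by fun_prop) (by fun_prop)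

theorem exists_unit (U : Type*) [NormedAddCommGroup U] [InnerProductSpace ℝ U] [Nontrivial U]
    (u : U) : ∃ w : U, ‖w‖ = 1 ∧ ‖u‖ • w = u := by
  by_cases hu : u = 0
  · obtain ⟨w, hw⟩ := exists_ne (0 : U)
    refine ⟨‖w‖⁻¹ • w, ?_, by simp [hu]⟩
    rw [norm_smul, norm_inv, norm_norm, inv_mul_cancel₀ (norm_ne_zero_iff.mpr hw)]
  · refine ⟨‖u‖⁻¹ • u, ?_, ?_⟩
    · rw [norm_smul, norm_inv, norm_norm, inv_mul_cancel₀ (norm_ne_zero_iff.mpr hu)]
    · rw [smul_smul, mul_inv_cancel₀ (norm_ne_zero_iff.mpr hu), one_smul]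

/-- going up -/
theorem exists_up [Nontrivial U] (x : E) : ∃ w : U, ‖w‖ = 1 ∧ ‖D.P x‖ • w = D.P x ∧
    ∀ τ : ℝ, 0 ≤ τ → ‖D.P (x + τ • D.S w)‖ = ‖D.P x‖ + τ ∧ D.M (x + τ • D.S w) = D.M x := by
  obtain ⟨w, hw, hw'⟩ := exists_unit U (D.P x)
  refine ⟨w, hw, hw', fun τ hτ => ⟨?_, ?_⟩⟩
  · rw [map_add, map_smul, D.PS]
    nth_rewrite 1 [← hw']
    rw [← add_smul, norm_smul, hw, mul_one, Real.norm_eq_abs, abs_of_nonneg (by positivity)]
  · rw [map_add, map_smul, D.MS, smul_zero, add_zero]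

/-- going down -/
theorem exists_down [Nontrivial V] (x : E) : ∃ w : V, ‖w‖ = 1 ∧
    ∀ τ : ℝ, 0 ≤ τ → ‖D.M (x + τ • D.T w)‖ = ‖D.M x‖ + τ ∧ D.P (x + τ • D.T w) = D.P x := by
  obtain ⟨w, hw, hw'⟩ := exists_unit V (D.M x)
  refine ⟨w, hw, fun τ hτ => ⟨?_, ?_⟩⟩
  · rw [map_add, map_smul, D.MT]
    nth_rewrite 1 [← hw']
    rw [← add_smul, norm_smul, hw, mul_one, Real.norm_eq_abs, abs_of_nonneg (by positivity)]
  · rw [map_add, map_smul, D.PT, smul_zero, add_zero]

theorem frontier_Om [Nontrivial U] : frontier D.Om = {x | D.F x = 0} := by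
  apply Subset.antisymm
  · intro x hx
    have := frontier_lt_subset_eq (f := fun x => ‖D.M x‖) (g := fun x => ‖D.P x‖)
      (by fun_prop) (by fun_prop) hx
    have this : ‖D.M x‖ = ‖D.P x‖ := this
    simp [F, this]
  · intro x hx
    have hx' : D.F x = 0 := hx
    have hni : x ∉ D.Om := by rw [mem_Om, hx']; exact lt_irrefl 0
    rw [frontier, mem_sdiff, D.isOpen_Om.interior_eq]
    refine ⟨?_, hni⟩
    obtain ⟨w, hw, -, hup⟩ := D.exists_up x
    have ht : Filter.Tendsto (fun τ : ℝ => x + τ • D.S w) (nhdsWithin 0 (Ioi 0)) (nhds x) := by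
      have : Continuous (fun τ : ℝ => x + τ • D.S w) := by fun_prop
      have h2 := this.tendsto 0
      rw [zero_smul, add_zero] at h2
      exact h2.mono_left nhdsWithin_le_nhds
    apply mem_closure_of_tendsto ht
    filter_upwards [self_mem_nhdsWithin] with τ hτ
    have hτ' : 0 < τ := hτ
    have := hup τ hτ'.le
    rw [mem_Om, F, this.1, this.2]
    unfold F at hx'
    linarith

theorem zero_mem_frontier [Nontrivial U] : (0 : E) ∈ frontier D.Om := by
  rw [frontier_Om]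
  simp [F]

/-- lower bound for the distance to the boundary -/
theorem le_infDist [Nontrivial U] (x : E) : |D.F x| / D.L ≤ infDist x (frontier D.Om) := by
  rw [Metric.le_infDist ⟨0, D.zero_mem_frontier⟩]
  intro y hy
  rw [frontier_Om] at hy
  have hy' : D.F y = 0 := hy
  rw [div_le_iff₀ D.L_pos, mul_comm (dist x y), abs_le]
  have h1 := D.F_sub_le x y
  have h2 := D.F_sub_le y x
  rw [dist_comm y x] at h2
  constructor <;> linarith

theorem F_div_le_infDist [Nontrivial U] (x : E) : D.F x / D.L ≤ infDist x (frontier D.Om) := by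
  refine le_trans ?_ (D.le_infDist x)
  gcongr
  · exact D.L_pos.le
  · exact le_abs_self _

/-- upper bound for the distance to the boundary -/
theorem infDist_le [Nontrivial U] [Nontrivial V] {x : E} (hx : x ∈ D.Om) :
    infDist x (frontier D.Om) ≤ D.C * D.F x := by
  rw [mem_Om] at hx
  obtain ⟨w, hw, hdown⟩ := D.exists_down x
  have h := hdown (D.F x) hx.le
  have hmem : x + D.F x • D.T w ∈ frontier D.Om := by
    rw [frontier_Om]
    show D.F _ = 0
    rw [F, h.1, h.2, F]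
    ring
  refine (infDist_le_dist_of_mem hmem).trans ?_
  rw [dist_eq_norm, sub_add_cancel_left, norm_neg, norm_smul, Real.norm_eq_abs, abs_of_pos hx]
  have := D.norm_T_le w
  rw [hw, mul_one] at this
  nlinarith

end Split

end Pool.Agent.Work.MP_a2ab48_an
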