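import Pool.Agent.Work.MP_a2ab48_an.Defs
import Pool.Agent.Work.MP_a2ab48_an.Logs

open Set Topology

namespace Pool.Agent.Work.MP_a2ab48_an

/-- the cone over a torus, times a line -/
def Y : Set (Rn 5) := {x | x 0 ^ 2 + x 1 ^ 2 = x 2 ^ 2 + x 3 ^ 2}

/-- two rays issuing from `y` -/
def Ray1 (y : Rn 5) : Set (Rn 5) :=
  {x | 0 ≤ x 4 - y 4 ∧ ∀ j : Fin 5, j ≠ 4 → x j = (1 + (x 4 - y 4)) * y j}

/-- two rays issuing from `y` -/
def Ray2 (y : Rn 5) : Set (Rn 5) :=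
  {x | 0 ≤ y 4 - x 4 ∧ ∀ j : Fin 5, j ≠ 4 → x j = (1 + (y 4 - x 4)) * y j}

theorem isClosed_Ray1 (y : Rn 5) : IsClosed (Ray1 y) := by
  have : Ray1 y = {x : Rn 5 | 0 ≤ x 4 - y 4} ∩
      ⋂ j : Fin 5, {x : Rn 5 | j ≠ 4 → x j = (1 + (x 4 - y 4)) * y j} := by
    ext x; simp [Ray1]
  rw [this]
  apply IsClosed.inter
  · exact isClosed_le (by fun_prop) (by fun_prop)
  · apply isClosed_iInter
    intro j
    by_cases hj : j = 4
    · simp [hj]
    · simp only [ne_eq, hj, not_false_eq_true, forall_const]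
      exact isClosed_eq (by fun_prop) (by fun_prop)

theorem isClosed_Ray2 (y : Rn 5) : IsClosed (Ray2 y) := by
  have : Ray2 y = {x : Rn 5 | 0 ≤ y 4 - x 4} ∩
      ⋂ j : Fin 5, {x : Rn 5 | j ≠ 4 → x j = (1 + (y 4 - x 4)) * y j} := by
    ext x; simp [Ray2]
  rw [this]
  apply IsClosed.inter
  · exact isClosed_le (by fun_prop) (by fun_prop)
  · apply isClosed_iInter
    intro j
    by_cases hj : j = 4
    · simp [hj]
    · simp only [ne_eq, hj, not_false_eq_true, forall_const]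
      exact isClosed_eq (by fun_prop) (by fun_prop)

/-- the apex points -/
noncomputable def apex (s : ℝ) : Rn 5 := EuclideanSpace.single 4 s

theorem apex_four (s : ℝ) : apex s 4 = s := by simp [apex]

theorem apex_ne (s : ℝ) {j : Fin 5} (hj : j ≠ 4) : apex s j = 0 := by
  simp [apex, hj]

theorem seg_four (s t : ℝ) (x : Rn 5) : (apex s + t • (x - apex s)) 4 = s + t * (x 4 - s) := by
  simp [apex_four]

theorem seg_ne (s t : ℝ) (x : Rn 5) {j : Fin 5} (hj : j ≠ 4) :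
    (apex s + t • (x - apex s)) j = t * x j := by
  simp [apex_ne s hj]

theorem seg_mem_Y (s t : ℝ) {x : Rn 5} (hx : x ∈ Y) : apex s + t • (x - apex s) ∈ Y := by
  have hx' : x 0 ^ 2 + x 1 ^ 2 = x 2 ^ 2 + x 3 ^ 2 := hx
  show _ = _
  rw [seg_ne s t x (by decide), seg_ne s t x (by decide), seg_ne s t x (by decide),
    seg_ne s t x (by decide)]
  linear_combination t ^ 2 * hx'

theorem apex_mem_Y (s : ℝ) : apex s ∈ Y := by
  show _ = _
  rw [apex_ne s (by decide), apex_ne s (by decide), apex_ne s (by decide), apex_ne s (by decide)]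

/-- star-shapedness of `Y \ Ray1` -/
theorem star1 (y : Rn 5) : apex (y 4 - 1) ∈ Y ∩ (Ray1 y)ᶜ ∧ ∀ x ∈ Y ∩ (Ray1 y)ᶜ,
    ∀ t ∈ Icc (0 : ℝ) 1, apex (y 4 - 1) + t • (x - apex (y 4 - 1)) ∈ Y ∩ (Ray1 y)ᶜ := by
  constructor
  · refine ⟨apex_mem_Y _, fun h => ?_⟩
    have := h.1
    rw [apex_four] at this
    linarith
  · rintro x ⟨hxY, hx⟩ t ⟨ht0, ht1⟩
    refine ⟨seg_mem_Y _ _ hxY, fun h => hx ?_⟩
    obtain ⟨h1, h2⟩ := h
    rw [seg_four] at h1
    have ht : 0 < t := by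
      rcases ht0.lt_or_eq with h | h
      · exact h
      · rw [← h] at h1
        linarith
    have hfac : 1 ≤ t * (x 4 - y 4 + 1) := by linarith
    refine ⟨?_, fun j hj => ?_⟩
    · by_contra hneg
      push Not at hneg
      nlinarith
    · have := h2 j hj
      rw [seg_ne _ _ _ hj, seg_four] at this
      have h3 : t * x j = t * ((1 + (x 4 - y 4)) * y j) := by rw [this]; ring
      exact mul_left_cancel₀ ht.ne' h3

/-- star-shapedness of `Y \ Ray2` -/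
theorem star2 (y : Rn 5) : apex (y 4 + 1) ∈ Y ∩ (Ray2 y)ᶜ ∧ ∀ x ∈ Y ∩ (Ray2 y)ᶜ,
    ∀ t ∈ Icc (0 : ℝ) 1, apex (y 4 + 1) + t • (x - apex (y 4 + 1)) ∈ Y ∩ (Ray2 y)ᶜ := by
  constructor
  · refine ⟨apex_mem_Y _, fun h => ?_⟩
    have := h.1
    rw [apex_four] at this
    linarith
  · rintro x ⟨hxY, hx⟩ t ⟨ht0, ht1⟩
    refine ⟨seg_mem_Y _ _ hxY, fun h => hx ?_⟩
    obtain ⟨h1, h2⟩ := h
    rw [seg_four] at h1
    have ht : 0 < t := by
      rcases ht0.lt_or_eq with h | h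
      · exact h
      · rw [← h] at h1
        linarith
    have hfac : 1 ≤ t * (y 4 - x 4 + 1) := by linarith
    refine ⟨?_, fun j hj => ?_⟩
    · by_contra hneg
      push Not at hneg
      nlinarith
    · have := h2 j hj
      rw [seg_ne _ _ _ hj, seg_four] at this
      have h3 : t * x j = t * ((1 + (y 4 - x 4)) * y j) := by rw [this]; ring
      exact mul_left_cancel₀ ht.ne' h3

/-- polar parametrisation of `Y` -/
noncomputable def polar (q : (ℝ × ℝ) × (ℝ × ℝ)) : Rn 5 :=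
  WithLp.toLp 2 ![q.2.1 * Real.cos q.1.1, q.2.1 * Real.sin q.1.1, q.2.1 * Real.cos q.1.2,
    q.2.1 * Real.sin q.1.2, q.2.2]

theorem continuous_polar : Continuous polar := by
  unfold polar
  refine (PiLp.continuous_toLp 2 _).comp ?_
  apply continuous_pi
  intro i
  fin_cases i <;> simp <;> fun_prop

theorem exists_angle {a b r : ℝ} (hr : 0 ≤ r) (h : a ^ 2 + b ^ 2 = r ^ 2) :
    ∃ θ : ℝ, a = r * Real.cos θ ∧ b = r * Real.sin θ := by
  refine ⟨Complex.arg ⟨a, b⟩, ?_, ?_⟩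
  · have hn : ‖(⟨a, b⟩ : ℂ)‖ = r := by
      rw [← sq_eq_sq₀ (norm_nonneg _) hr, Complex.sq_norm, Complex.normSq_mk, ← h]
      ring
    rw [← hn]
    exact (Complex.norm_mul_cos_arg ⟨a, b⟩).symm
  · have hn : ‖(⟨a, b⟩ : ℂ)‖ = r := by
      rw [← sq_eq_sq₀ (norm_nonneg _) hr, Complex.sq_norm, Complex.normSq_mk, ← h]
      ring
    rw [← hn]
    exact (Complex.norm_mul_sin_arg ⟨a, b⟩).symm

theorem exists_polar {x : Rn 5} (hx : x ∈ Y) :
    ∃ α β r : ℝ, 0 ≤ r ∧ polar ((α, β), (r, x 4)) = x := by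
  have hx' : x 0 ^ 2 + x 1 ^ 2 = x 2 ^ 2 + x 3 ^ 2 := hx
  set r := Real.sqrt (x 0 ^ 2 + x 1 ^ 2) with hr
  have hr2 : r ^ 2 = x 0 ^ 2 + x 1 ^ 2 := Real.sq_sqrt (by positivity)
  obtain ⟨α, h0, h1⟩ := exists_angle (Real.sqrt_nonneg _) hr2.symm
  obtain ⟨β, h2, h3⟩ := exists_angle (a := x 2) (b := x 3) (Real.sqrt_nonneg _)
    (by rw [← hx', ← hr2])
  refine ⟨α, β, r, Real.sqrt_nonneg _, ?_⟩
  ext i
  fin_cases i
  · simpa [polar] using h0.symm
  · simpa [polar] using h1.symm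
  · simpa [polar] using h2.symm
  · simpa [polar] using h3.symm
  · simp [polar]

theorem polar_mem_Y (q : (ℝ × ℝ) × (ℝ × ℝ)) : polar q ∈ Y := by
  show _ = _
  simp only [polar]
  simp only [Fin.isValue, Matrix.cons_val_zero, Matrix.cons_val_one, Matrix.cons_val]
  have h1 := Real.sin_sq_add_cos_sq q.1.1
  have h2 := Real.sin_sq_add_cos_sq q.1.2
  linear_combination q.2.1 ^ 2 * h1 - q.2.1 ^ 2 * h2

end Pool.Agent.Work.MP_a2ab48_an
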